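import Pool.Agent.V11233.FP.Prl

/-!
The characterisation of the families of the first-move self-regulating pushdown automata.
-/

set_option autoImplicit false

namespace Pool.Agent.V11233.FP

open Pool.Agent.V11233.SR

theorem phw_ne_nil {n k : ℕ} (hk : 1 ≤ k) : phw n k ≠ [] := by
  obtain ⟨k', rfl⟩ : ∃ k', k = k' + 1 := ⟨k - 1, by omega⟩
  rw [phw_eq, List.replicate_succ]
  simp

/-- homomorphic images of context-free languages with typed letters -/
theorem typed_mem {n : ℕ} {S Δ : Type} [Finite Δ] (K : Language Δ) (hK : K.IsContextFree)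
    (g : Δ → ℕ) (h : Δ → List S) :
    {w | ∃ u ∈ K, (∃ k, 1 ≤ k ∧ u.map g = phw n k) ∧ w = u.flatMap h} ∈ FSPDA n S := by
  obtain ⟨N, hN, Z, GR, hGR, hiff⟩ := gnf K hK
  refine ⟨mach n GR g h Z hN (Lb_finite hN inferInstance hGR), ?_⟩
  rw [mach_lang]
  ext w
  constructor
  · rintro ⟨u, hu, ⟨k, hk, hg⟩, rfl⟩
    have hne : u ≠ [] := by
      rintro rfl
      exact phw_ne_nil hk hg.symm
    exact ⟨u, (hiff u hne).1 hu, rfl, k, hk, hg⟩
  · rintro ⟨u, hu, rfl, k, hk, hg⟩
    have hne : u ≠ [] := by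
      rintro rfl
      exact phw_ne_nil hk hg.symm
    exact ⟨u, (hiff u hne).2 hu, ⟨k, hk, hg⟩, rfl⟩

theorem mem_typed {n : ℕ} {S : Type} {L : Set (List S)} (hL : L ∈ FSPDA n S) :
    ∃ (Δ : Type) (_ : Finite Δ) (K : Language Δ) (g : Δ → ℕ) (h : Δ → List S),
      K.IsContextFree ∧ L = {w | ∃ u ∈ K, (∃ k, 1 ≤ k ∧ u.map g = phw n k) ∧
        w = u.flatMap h} := by
  obtain ⟨M, rfl⟩ := hL
  have h1 := M.finΨ
  refine ⟨Fin (n + 1) × M.Ψ, inferInstance, XK M n, fun d => d.1.val, fun d => M.inp d.2,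
    XK_isContextFree M n, ?_⟩
  rw [lang_eq]
  ext w
  constructor
  · rintro ⟨u, h2, h3, h4⟩
    exact ⟨u, h2, h4, h3⟩
  · rintro ⟨u, h2, h4, h3⟩
    exact ⟨u, h2, h3, h4⟩

/-- the grammar of the words whose types are `0 ^ k 1 ^ k ⋯ n ^ k` -/
def tyG {Δ : Type} (hΔ : Finite Δ) (n : ℕ) (g : Δ → ℕ) : PRLG n Δ where
  N := Unit
  finN := inferInstance
  start := Set.univ
  rules i := {x | ∃ a, g a = i.val ∧ x.2.1 = [a]}
  finR := by
    intro i
    refine Set.Finite.subset (Set.finite_univ.prod ((Set.finite_range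
      (fun a : Δ => [a])).prod Set.finite_univ)) ?_
    rintro ⟨X, w, Y⟩ ⟨a, -, h⟩
    exact ⟨trivial, ⟨a, h.symm⟩, trivial⟩

theorem ty_dc {Δ : Type} {hΔ : Finite Δ} {n : ℕ} {g : Δ → ℕ} {i : Fin (n + 1)}
    {X : (tyG hΔ n g).N} {k : ℕ} {v : List Δ} (h : DC (tyG hΔ n g) i X k v) :
    v.map g = List.replicate k i.val := by
  induction h with
  | last X u h =>
    obtain ⟨a, h1, h2⟩ := h
    have h3 : u = [a] := h2
    rw [h3, List.map_singleton, h1]
    rfl
  | step X Y u k v h _ ih =>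
    obtain ⟨a, h1, h2⟩ := h
    have h3 : u = [a] := h2
    rw [h3, List.singleton_append, List.map_cons, ih, h1, List.replicate_succ]

theorem dc_ty {Δ : Type} {hΔ : Finite Δ} {n : ℕ} {g : Δ → ℕ} {i : Fin (n + 1)} (k : ℕ) :
    ∀ {X : (tyG hΔ n g).N} {v : List Δ}, v.map g = List.replicate (k + 1) i.val →
      DC (tyG hΔ n g) i X (k + 1) v := by
  induction k with
  | zero =>
    intro X v h
    rcases v with - | ⟨a, v⟩
    · simp at h
    · rw [List.map_cons, List.replicate_succ, List.cons.injEq] at h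
      have hv : v = [] := by simpa using h.2
      subst hv
      exact DC.last _ _ ⟨a, h.1, rfl⟩
  | succ k ih =>
    intro X v h
    rcases v with - | ⟨a, v⟩
    · simp [List.replicate_succ] at h
    · rw [List.map_cons, List.replicate_succ, List.cons.injEq] at h
      have h1 := DC.step (G := tyG hΔ n g) (i := i) X () [a] (k + 1) v ⟨a, h.1, rfl⟩ (ih h.2)
      exact h1

theorem ty_lang {Δ : Type} (hΔ : Finite Δ) (n : ℕ) (g : Δ → ℕ) :
    (tyG hΔ n g).lang = {u | ∃ k, 1 ≤ k ∧ u.map g = phw n k} := by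
  ext u
  rw [lang_iff]
  constructor
  · rintro ⟨X, -, k, hk, v, hv, rfl⟩
    refine ⟨k, hk, ?_⟩
    rw [List.map_flatten, List.map_ofFn]
    have h1 : (List.map g ∘ v) = fun i : Fin (n + 1) => List.replicate k i.val := by
      funext i
      exact ty_dc (hv i)
    rw [h1, ofFn_flatten (n := n) (fun i => List.replicate k i), phw, List.range_eq_range']
  · rintro ⟨k, hk, h⟩
    obtain ⟨k', rfl⟩ : ∃ k', k = k' + 1 := ⟨k - 1, by omega⟩
    rw [phw, List.flatMap_def] at h
    obtain ⟨L, rfl, h1⟩ := map_flatten_inv g _ u h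
    have hlen : L.length = n + 1 := by
      have := congrArg List.length h1
      simpa using this
    refine ⟨fun _ => (), trivial, k' + 1, hk, fun i => L[i.val]'(by rw [hlen]; exact i.2), ?_, ?_⟩
    · intro i
      apply dc_ty
      have hi : i.val < L.length := by rw [hlen]; exact i.2
      have h2 := congrArg (fun l => l[i.val]?) h1
      simp only [List.getElem?_map] at h2
      rw [List.getElem?_eq_getElem hi, List.getElem?_range i.2] at h2
      exact Option.some.inj h2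
    · congr 1
      apply List.ext_getElem
      · simp [hlen]
      · intro j h2 h3
        rw [List.getElem_ofFn]

/-- homomorphic images of intersections of context-free languages with parallel right linear
languages -/
theorem prl_mem {n : ℕ} {S T : Type} [Finite T] (K : Language T) (hK : K.IsContextFree)
    (G : PRLG n T) (h : T → List S) :
    {w | ∃ u ∈ K, u ∈ G.lang ∧ w = u.flatMap h} ∈ FSPDA n S := by
  have h1 := G.finN
  have h2 := TP_finite G
  have hCF := isContextFree_inv K hK (zC G) (vC G)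
    {z | z.1 ∈ G.start ∧ z.2.1.val = 0 ∧ z.2.2 = none} {z | z.2.2 = none}
  have h3 := typed_mem (n := n) _ hCF (fun l : TP G => l.1.1.val) (fun l => (vC G l).flatMap h)
  refine (congrArg (· ∈ FSPDA n S) ?_).mp h3
  ext w
  constructor
  · rintro ⟨ρ, ⟨⟨z, ⟨hz1, hz2, hz3⟩, z', hz', hw⟩, hρ⟩, ⟨k, hk, hg⟩, rfl⟩
    rw [phw, List.range_eq_range'] at hg
    obtain ⟨v, h4, h5⟩ := Wk.decomp hk (n + 1) hw (by omega) rfl hz2 hz3 hz' hg
    refine ⟨_, hρ, ?_, ?_⟩
    · rw [lang_iff]
      refine ⟨z.1, hz1, k, hk, fun i => v i.val, fun j => h5 j (Nat.zero_le _), ?_⟩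
      rw [h4, ofFn_flatten]
    · rw [List.flatMap_assoc]
  · rintro ⟨u, hu, hG, rfl⟩
    rw [lang_iff] at hG
    obtain ⟨X, hX, k, hk, v, hv, rfl⟩ := hG
    obtain ⟨v', hv'⟩ : ∃ v' : ℕ → List T, ∀ i : Fin (n + 1), v' i.val = v i :=
      ⟨fun j => if hj : j < n + 1 then v ⟨j, hj⟩ else [], fun i => dif_pos i.2⟩
    obtain ⟨ρ, z', h4, h5, h6, h7⟩ := exists_walk (k := k) (n + 1) (i := 0) (σ := X)
      (z := (X, (0 : Fin (n + 2)), (none : Option G.N))) (v := v') (by omega) rfl rfl rfl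
      (fun j _ => by rw [hv']; exact hv j)
    have h8 : ρ.flatMap (vC G) = (List.ofFn v).flatten := by
      rw [h5, ← ofFn_flatten (n := n)]
      congr 2
      funext i
      exact hv' i
    refine ⟨ρ, ⟨⟨_, ⟨hX, rfl, rfl⟩, z', h7, h6⟩, ?_⟩, ⟨k, hk, ?_⟩, ?_⟩
    · rw [h8]
      exact hu
    · rw [h4, phw, List.range_eq_range']
    · rw [← h8, List.flatMap_assoc]

end Pool.Agent.V11233.FP
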