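import Pool.Agent.V11233.FP.Yld

/-!
Every context-free language is generated by a grammar all of whose productions generate exactly one
letter (and at most two nonterminals); the left corner construction.
-/

set_option autoImplicit false

namespace Pool.Agent.V11233.FP

section un
variable {T N : Type}

/-- renaming and erasing steps -/
inductive Un (R : Set (ContextFreeRule T N)) : List (Symbol T N) → List (Symbol T N) → Prop
  | refl (α : List (Symbol T N)) : Un R α α
  | rule (r : ContextFreeRule T N) (β : List (Symbol T N)) : r ∈ R → Un R r.output β →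
      Un R [Symbol.nonterminal r.input] β
  | left (X : Symbol T N) (β γ : List (Symbol T N)) : Yld R β [] → Un R [X] γ →
      Un R (X :: β) γ
  | right (X : Symbol T N) (β γ : List (Symbol T N)) : Yld R [X] [] → Un R β γ →
      Un R (X :: β) γ

/-- the words generated with binary and terminal steps -/
inductive CN (R : Set (ContextFreeRule T N)) : List (Symbol T N) → List T → Prop
  | term (α : List (Symbol T N)) (a : T) : Un R α [Symbol.terminal a] → CN R α [a]
  | bin (α : List (Symbol T N)) (X : Symbol T N) (β : List (Symbol T N)) (u v : List T) :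
      Un R α (X :: β) → CN R [X] u → CN R β v → CN R α (u ++ v)

/-- the words to the right of left corners -/
inductive LC (R : Set (ContextFreeRule T N)) : List (Symbol T N) → List (Symbol T N) →
    List T → Prop
  | nil (A : List (Symbol T N)) : LC R A A []
  | snoc (A D E : List (Symbol T N)) (X : Symbol T N) (u v : List T) : LC R A D v →
      Un R D (X :: E) → CN R E u → LC R A [X] (u ++ v)

variable {R : Set (ContextFreeRule T N)}

theorem Un.sound {α β : List (Symbol T N)} (h : Un R α β) : ∀ {w : List T}, Yld R β w →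
    Yld R α w := by
  induction h with
  | refl α => exact fun h => h
  | rule r β hr _ ih => exact fun h => Yld.single hr (ih h)
  | left X β γ h1 _ ih =>
    intro w h
    have h2 := (ih h).append h1
    rwa [List.append_nil] at h2
  | right X β γ h1 _ ih =>
    intro w h
    exact h1.append (ih h)

theorem CN.sound {α : List (Symbol T N)} {w : List T} (h : CN R α w) : Yld R α w := by
  induction h with
  | term α a h => exact h.sound (Yld.term a [] [] Yld.nil)
  | bin α X β u v h _ _ ih1 ih2 => exact h.sound (ih1.append ih2)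

theorem CN.ne_nil {α : List (Symbol T N)} {w : List T} (h : CN R α w) : w ≠ [] := by
  induction h with
  | term α a h => simp
  | bin α X β u v h _ _ ih1 ih2 => simp [ih1]

theorem CN.lift {α β : List (Symbol T N)} {w : List T} (h : CN R β w)
    (hU : ∀ γ, Un R β γ → Un R α γ) : CN R α w := by
  cases h with
  | term _ a h => exact CN.term _ _ (hU _ h)
  | bin _ X γ u v h h1 h2 => exact CN.bin _ X γ u v (hU _ h) h1 h2

theorem CN.complete {α : List (Symbol T N)} {w : List T} (h : Yld R α w) : w ≠ [] →
    CN R α w := by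
  induction h with
  | nil => exact fun h => absurd rfl h
  | term a β w hβ ih =>
    intro _
    rcases eq_or_ne w [] with rfl | hw
    · exact CN.term _ a (Un.left _ _ _ hβ (Un.refl _))
    · exact CN.bin _ (Symbol.terminal a) β [a] w (Un.refl _) (CN.term _ a (Un.refl _)) (ih hw)
  | nont r β u w hr h1 h2 ih1 ih2 =>
    intro hne
    rcases eq_or_ne u [] with rfl | hu
    · have hw : w ≠ [] := by simpa using hne
      rw [List.nil_append]
      exact (ih2 hw).lift (fun γ hγ => Un.right _ _ _ (Yld.single hr h1) hγ)
    · have h3 : CN R [Symbol.nonterminal r.input] u :=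
        (ih1 hu).lift (fun γ hγ => Un.rule r _ hr hγ)
      rcases eq_or_ne w [] with rfl | hw
      · rw [List.append_nil]
        exact h3.lift (fun γ hγ => Un.left _ _ _ h2 hγ)
      · exact CN.bin _ _ β u w (Un.refl _) h3 (ih2 hw)

theorem LC.trans {A B D : List (Symbol T N)} {v u : List T} (h : LC R A B v)
    (h' : LC R B D u) : LC R A D (u ++ v) := by
  induction h' with
  | nil => exact h
  | snoc D E X u w _ h2 h3 ih =>
    rw [List.append_assoc]
    exact LC.snoc A D E X u _ ih h2 h3

theorem LC.cn {A B : List (Symbol T N)} {v : List T} (h : LC R A B v) : ∀ {u : List T},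
    CN R B u → CN R A (u ++ v) := by
  induction h with
  | nil =>
    intro u h
    rwa [List.append_nil]
  | snoc D E X u v _ h2 h3 ih =>
    intro w h
    rw [← List.append_assoc]
    exact ih (CN.bin D X E w u h2 h h3)

theorem CN.lc {A : List (Symbol T N)} {w : List T} (h : CN R A w) :
    ∃ B a v, w = a :: v ∧ Un R B [Symbol.terminal a] ∧ LC R A B v := by
  induction h with
  | term α a h => exact ⟨α, a, [], rfl, h, LC.nil α⟩
  | bin α X β u v h _ h2 ih1 _ =>
    obtain ⟨B, a, u', rfl, h3, h4⟩ := ih1
    refine ⟨B, a, u' ++ v, rfl, h3, LC.trans ?_ h4⟩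
    have := LC.snoc α α β X v [] (LC.nil α) h h2
    rwa [List.append_nil] at this

theorem LC.nil_inv {A B : List (Symbol T N)} (h : LC R A B []) : A = B := by
  generalize hw : ([] : List T) = w at h
  cases h with
  | nil => rfl
  | snoc D E X u v h1 h2 h4 =>
    exfalso
    have h5 := List.append_eq_nil_iff.1 hw.symm
    exact h4.ne_nil h5.1

/-- closed sets of lists of symbols -/
structure Closed (R : Set (ContextFreeRule T N)) (C : Set (List (Symbol T N))) : Prop where
  tail : ∀ X β, X :: β ∈ C → β ∈ C
  head : ∀ X β, X :: β ∈ C → [X] ∈ C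
  out : ∀ r ∈ R, r.output ∈ C

theorem exists_closed (hR : R.Finite) (S : N) : ∃ C : Set (List (Symbol T N)), C.Finite ∧
    Closed R C ∧ [Symbol.nonterminal S] ∈ C := by
  obtain ⟨K, hK⟩ := (hR.image (fun r => r.output.length)).bddAbove
  obtain ⟨Sy, hSy⟩ : ∃ Sy : Set (Symbol T N), Sy = {Symbol.nonterminal S} ∪
      ⋃ r ∈ R, {X | X ∈ r.output} := ⟨_, rfl⟩
  have hSyf : Sy.Finite := by
    rw [hSy]
    refine (Set.finite_singleton _).union (hR.biUnion ?_)
    intro r _
    exact List.finite_toSet _
  have hf : Finite Sy := hSyf.to_subtype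
  refine ⟨{α | α.length ≤ K + 1 ∧ ∀ X ∈ α, X ∈ Sy}, ?_, ⟨?_, ?_, ?_⟩, ?_, ?_⟩
  · refine ((List.finite_length_le Sy (K + 1)).image (List.map Subtype.val)).subset ?_
    rintro α ⟨h1, h2⟩
    refine ⟨α.pmap Subtype.mk h2, ?_, ?_⟩
    · simpa using h1
    · simp [List.map_pmap]
  · rintro X β ⟨h1, h2⟩
    refine ⟨?_, fun Y hY => h2 Y (by simp [hY])⟩
    rw [List.length_cons] at h1
    omega
  · rintro X β ⟨h1, h2⟩
    refine ⟨by simp, ?_⟩
    intro Y hY
    rw [List.mem_singleton] at hY
    subst hY
    exact h2 _ (by simp)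
  · intro r hr
    refine ⟨?_, ?_⟩
    · have := hK ⟨r, hr, rfl⟩
      simp only at this
      omega
    · intro X hX
      rw [hSy]
      exact Or.inr (Set.mem_biUnion hr hX)
  · simp
  · intro X hX
    rw [List.mem_singleton] at hX
    subst hX
    rw [hSy]
    exact Or.inl rfl

variable {C : Set (List (Symbol T N))}

theorem Un.mem (hC : Closed R C) {α β : List (Symbol T N)} (h : Un R α β) :
    α ∈ C → β ∈ C := by
  induction h with
  | refl α => exact fun h => h
  | rule r β hr _ ih => exact fun _ => ih (hC.out r hr)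
  | left X β γ h1 _ ih => exact fun h => ih (hC.head X β h)
  | right X β γ h1 _ ih => exact fun h => ih (hC.tail X β h)

theorem LC.mem (hC : Closed R C) {α β : List (Symbol T N)} {v : List T} (h : LC R α β v) :
    α ∈ C → β ∈ C := by
  induction h with
  | nil => exact fun h => h
  | snoc D E X u v _ h2 h3 ih => exact fun h => hC.head X E (h2.mem hC (ih h))

end un

/-- grammars all of whose productions generate exactly one letter -/
inductive Acc {N T : Type} (GR : N → T → List N → Prop) : List N → List T → Prop
  | nil : Acc GR [] []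
  | cons (A : N) (a : T) (γ β : List N) (w : List T) : GR A a γ → Acc GR (γ ++ β) w →
      Acc GR (A :: β) (a :: w)

section gnf
variable {T N : Type} (R : Set (ContextFreeRule T N)) (C : Set (List (Symbol T N)))

/-- an optional symbol -/
def O1 (E F : C) (γ : List (Option (C × C))) : Prop := γ = [some (E, F)] ∨ (E = F ∧ γ = [])

/-- the productions -/
def GRel (S : C) : Option (C × C) → T → List (Option (C × C)) → Prop
  | none, a, γ => ∃ F : C, Un R F.1 [Symbol.terminal a] ∧ O1 C S F γ
  | some (A, B), a, γ => ∃ (D E F : C) (X : Symbol T N) (γ1 γ2 : List (Option (C × C))),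
      Un R D.1 (X :: E.1) ∧ B.1 = [X] ∧ Un R F.1 [Symbol.terminal a] ∧ γ = γ1 ++ γ2 ∧
        O1 C E F γ1 ∧ O1 C A D γ2

/-- the words generated by lists of symbols -/
inductive Sem (S : C) : List (Option (C × C)) → List T → Prop
  | nil : Sem S [] []
  | pair (A B : C) (β : List (Option (C × C))) (v w : List T) : LC R A.1 B.1 v → v ≠ [] →
      Sem S β w → Sem S (some (A, B) :: β) (v ++ w)
  | ini (β : List (Option (C × C))) (v w : List T) : CN R S.1 v → Sem S β w →
      Sem S (none :: β) (v ++ w)

variable {R} {C}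

theorem O1.length {E F : C} {γ : List (Option (C × C))} (h : O1 C E F γ) : γ.length ≤ 1 := by
  rcases h with rfl | ⟨-, rfl⟩ <;> simp

theorem O1.sem {S E F : C} {γ β : List (Option (C × C))} {w : List T} (h : O1 C E F γ)
    (h' : Sem R C S (γ ++ β) w) : ∃ v w', w = v ++ w' ∧ LC R E.1 F.1 v ∧ Sem R C S β w' := by
  rcases h with rfl | ⟨rfl, rfl⟩
  · cases h' with
    | pair _ _ _ v w h1 _ h2 => exact ⟨v, w, rfl, h1, h2⟩
  · exact ⟨[], w, rfl, LC.nil _, h'⟩

theorem O1.ex {S E F : C} {v : List T} (h : LC R E.1 F.1 v) : ∃ γ, O1 C E F γ ∧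
    ∀ β w, Sem R C S β w → Sem R C S (γ ++ β) (v ++ w) := by
  rcases eq_or_ne v [] with rfl | hv
  · refine ⟨[], Or.inr ⟨Subtype.ext h.nil_inv, rfl⟩, fun β w h => h⟩
  · exact ⟨[some (E, F)], Or.inl rfl, fun β w h' => Sem.pair E F β v w h hv h'⟩

theorem acc_sem {S : C} {β : List (Option (C × C))} {w : List T}
    (h : Acc (GRel R C S) β w) : Sem R C S β w := by
  induction h with
  | nil => exact Sem.nil
  | cons A a γ β w h1 _ ih =>
    rcases A with - | ⟨A, B⟩
    · obtain ⟨F, h2, h3⟩ := h1
      obtain ⟨v, w', rfl, h4, h5⟩ := h3.sem ih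
      exact Sem.ini β (a :: v) w' (h4.cn (CN.term _ a h2)) h5
    · obtain ⟨D, E, F, X, γ1, γ2, h2, h3, h4, rfl, h5, h6⟩ := h1
      rw [List.append_assoc] at ih
      obtain ⟨v, w', rfl, h7, h8⟩ := h5.sem ih
      obtain ⟨v', w'', rfl, h9, h10⟩ := h6.sem h8
      have h11 : LC R A.1 B.1 ((a :: v) ++ v') := by
        rw [h3]
        exact LC.snoc A.1 D.1 E.1 X (a :: v) v' h9 h2 (h7.cn (CN.term _ a h4))
      have h12 := Sem.pair A B β _ w'' h11 (by simp) h10
      rwa [List.append_assoc] at h12

theorem sem_acc (hC : Closed R C) {S : C} (n : ℕ) : ∀ {β : List (Option (C × C))} {w : List T},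
    w.length ≤ n → Sem R C S β w → Acc (GRel R C S) β w := by
  induction n with
  | zero =>
    intro β w hn h
    cases h with
    | nil => exact Acc.nil
    | pair A B β v w h1 h2 h3 =>
      exfalso
      rw [List.length_append] at hn
      have := List.length_pos_iff.2 h2
      omega
    | ini β v w h1 h2 =>
      exfalso
      rw [List.length_append] at hn
      have := List.length_pos_iff.2 h1.ne_nil
      omega
  | succ n ihn =>
    intro β w hn h
    cases h with
    | nil => exact Acc.nil
    | pair A B β v w h1 h2 h3 =>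
      obtain ⟨A, hA⟩ := A
      obtain ⟨B, hB⟩ := B
      simp only at h1
      cases h1 with
      | nil => exact absurd rfl h2
      | snoc D E X u v h4 h5 h6 =>
        obtain ⟨F, a, u', rfl, h7, h8⟩ := h6.lc
        have hD : D ∈ C := h4.mem hC hA
        have hE : E ∈ C := hC.tail X E (h5.mem hC hD)
        have hF : F ∈ C := h8.mem hC hE
        obtain ⟨γ1, g1, g2⟩ := O1.ex (S := S) (E := ⟨E, hE⟩) (F := ⟨F, hF⟩) h8
        obtain ⟨γ2, g3, g4⟩ := O1.ex (S := S) (E := ⟨A, hA⟩) (F := ⟨D, hD⟩) h4
        have h9 := g2 _ _ (g4 _ _ h3)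
        have h10 : (u' ++ (v ++ w)).length ≤ n := by
          simp only [List.length_append, List.length_cons] at hn ⊢
          omega
        have h11 := ihn h10 h9
        have h12 := Acc.cons (GR := GRel R C S) (some (⟨A, hA⟩, ⟨[X], hB⟩)) a (γ1 ++ γ2) β
          (u' ++ (v ++ w)) ⟨⟨D, hD⟩, ⟨E, hE⟩, ⟨F, hF⟩, X, γ1, γ2, h5, rfl, h7, rfl, g1, g3⟩
          (by rwa [List.append_assoc])
        simpa using h12
    | ini β v w h1 h2 =>
      obtain ⟨F, a, u', rfl, h7, h8⟩ := h1.lc
      have hF : F ∈ C := h8.mem hC S.2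
      obtain ⟨γ1, g1, g2⟩ := O1.ex (S := S) (E := S) (F := ⟨F, hF⟩) h8
      have h10 : (u' ++ w).length ≤ n := by
        simp only [List.length_append, List.length_cons] at hn ⊢
        omega
      exact Acc.cons (GR := GRel R C S) none a γ1 β (u' ++ w) ⟨⟨F, hF⟩, h7, g1⟩
        (ihn h10 (g2 _ _ h2))

theorem GRel_length {S : C} {A : Option (C × C)} {a : T} {γ : List (Option (C × C))}
    (h : GRel R C S A a γ) : γ.length ≤ 2 := by
  rcases A with - | ⟨A, B⟩
  · obtain ⟨F, h2, h3⟩ := h
    have := h3.length
    omega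
  · obtain ⟨D, E, F, X, γ1, γ2, h2, h3, h4, rfl, h5, h6⟩ := h
    have := h5.length
    have := h6.length
    rw [List.length_append]
    omega

end gnf

/-- Every context-free language is generated (up to the empty word) by a grammar all of whose
productions generate exactly one letter. -/
theorem gnf {T : Type} (K : Language T) (hK : K.IsContextFree) :
    ∃ (N : Type) (_ : Finite N) (Z : N) (GR : N → T → List N → Prop),
      (∀ A a γ, GR A a γ → γ.length ≤ 2) ∧ ∀ w, w ≠ [] → (w ∈ K ↔ Acc GR [Z] w) := by
  obtain ⟨g, rfl⟩ := hK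
  obtain ⟨C, hCf, hC, hS⟩ := exists_closed (R := {r | r ∈ g.rules})
    (by exact g.rules.finite_toSet) g.initial
  have hf : Finite C := hCf.to_subtype
  refine ⟨Option (C × C), inferInstance, none,
    GRel {r | r ∈ g.rules} C ⟨_, hS⟩, fun A a γ h => GRel_length h, ?_⟩
  intro w hw
  rw [mem_language_iff_yld]
  constructor
  · intro h
    have h1 := CN.complete h hw
    have h2 := Sem.ini (S := (⟨_, hS⟩ : C)) [] w [] h1 Sem.nil
    rw [List.append_nil] at h2
    exact sem_acc hC w.length le_rfl h2
  · intro h
    have h2 := acc_sem h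
    generalize hβ : ([none] : List (Option (C × C))) = β at h2
    cases h2 with
    | nil => simp at hβ
    | pair => simp at hβ
    | ini β v w h3 h4 =>
      have hβ' : β = [] := by simpa using hβ.symm
      subst hβ'
      generalize hβ2 : ([] : List (Option (C × C))) = β at h4
      cases h4 with
      | nil =>
        rw [List.append_nil]
        exact h3.sound
      | pair => simp at hβ2
      | ini => simp at hβ2

end Pool.Agent.V11233.FP
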