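import Pool.Agent.V11233.FP.Gnf

/-!
Closure of the context-free languages under finite transducers, in the form of inverse homomorphic
images intersected with regular languages.
-/

set_option autoImplicit false

namespace Pool.Agent.V11233.FP

section trs
variable {X T Λ : Type}

/-- runs of a transducer -/
inductive Trs (In : X → T → X → Prop) (Out : X → Λ → X → Prop) :
    X → List T → List Λ → X → Prop
  | nil (x : X) : Trs In Out x [] [] x
  | inn (a : T) (x x1 y : X) (w : List T) (ρ : List Λ) : In x a x1 →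
      Trs In Out x1 w ρ y → Trs In Out x (a :: w) ρ y
  | out (l : Λ) (x x1 y : X) (w : List T) (ρ : List Λ) : Out x l x1 →
      Trs In Out x1 w ρ y → Trs In Out x w (l :: ρ) y

variable {In : X → T → X → Prop} {Out : X → Λ → X → Prop}

theorem Trs.append {x y z : X} {u v : List T} {ρ ρ' : List Λ} (h : Trs In Out x u ρ y)
    (h' : Trs In Out y v ρ' z) : Trs In Out x (u ++ v) (ρ ++ ρ') z := by
  induction h with
  | nil x => exact h'
  | inn a x x1 y w ρ h1 _ ih => exact Trs.inn a x x1 z _ _ h1 (ih h')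
  | out l x x1 y w ρ h1 _ ih => exact Trs.out l x x1 z _ _ h1 (ih h')

theorem Trs.peel {x y : X} {a : T} {w : List T} {ρ : List Λ} (h : Trs In Out x (a :: w) ρ y) :
    ∃ x1 x2 ρ1 ρ2, ρ = ρ1 ++ ρ2 ∧ Trs In Out x [] ρ1 x1 ∧ In x1 a x2 ∧
      Trs In Out x2 w ρ2 y := by
  generalize hw : a :: w = w' at h
  induction h with
  | nil x => simp at hw
  | inn b x x1 y w' ρ h1 h2 _ =>
    rw [List.cons.injEq] at hw
    obtain ⟨rfl, rfl⟩ := hw
    exact ⟨x, x1, [], ρ, rfl, Trs.nil x, h1, h2⟩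
  | out l x x1 y w' ρ h1 _ ih =>
    obtain ⟨x2, x3, ρ1, ρ2, rfl, h2, h3, h4⟩ := ih hw
    exact ⟨x2, x3, l :: ρ1, ρ2, rfl, Trs.out l x x1 x2 [] ρ1 h1 h2, h3, h4⟩

theorem Trs.split (u : List T) : ∀ {x y : X} {v : List T} {ρ : List Λ},
    Trs In Out x (u ++ v) ρ y → ∃ z ρ1 ρ2, ρ = ρ1 ++ ρ2 ∧ Trs In Out x u ρ1 z ∧
      Trs In Out z v ρ2 y := by
  induction u with
  | nil =>
    intro x y v ρ h
    exact ⟨x, [], ρ, rfl, Trs.nil x, h⟩
  | cons a u ih =>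
    intro x y v ρ h
    obtain ⟨x1, x2, ρ1, ρ2, rfl, h1, h2, h3⟩ := Trs.peel h
    obtain ⟨z, ρ3, ρ4, rfl, h4, h5⟩ := ih h3
    refine ⟨z, ρ1 ++ ρ3, ρ4, by rw [List.append_assoc], ?_, h5⟩
    exact h1.append (Trs.inn a x1 x2 z u ρ3 h2 h4)

variable {N : Type} (R : Set (ContextFreeRule T N)) (C : Set (List (Symbol T N)))

/-- the leaves -/
def tlf (X : Type) (C : Set (List (Symbol T N))) (A : X × C × X) : Prop :=
  A.2.1.1 = [] ∧ A.1 = A.2.2

/-- the unary productions -/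
def tP1 (In : X → T → X → Prop) (Out : X → Λ → X → Prop) (A : X × C × X) (w : List Λ)
    (B : X × C × X) : Prop :=
  (∃ l, Out A.1 l B.1 ∧ A.2.1 = B.2.1 ∧ A.2.2 = B.2.2 ∧ w = [l]) ∨
    ∃ a, In A.1 a B.1 ∧ A.2.1.1 = Symbol.terminal a :: B.2.1.1 ∧ A.2.2 = B.2.2 ∧ w = []

/-- the binary productions -/
def tP2 (A : X × C × X) (w : List Λ) (B D : X × C × X) : Prop :=
  w = [] ∧ ∃ r ∈ R, A.2.1.1 = Symbol.nonterminal r.input :: D.2.1.1 ∧ B.2.1.1 = r.output ∧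
    B.1 = A.1 ∧ B.2.2 = D.1 ∧ D.2.2 = A.2.2

variable {R C}

theorem Tr.trs {A : X × C × X} {ρ : List Λ}
    (h : Tr (tlf X C) (tP1 C In Out) (tP2 (Λ := Λ) R C) A ρ) :
    ∃ w, Yld R A.2.1.1 w ∧ Trs In Out A.1 w ρ A.2.2 := by
  induction h with
  | leaf A h =>
    obtain ⟨h1, h2⟩ := h
    rw [h1, h2]
    exact ⟨[], Yld.nil, Trs.nil _⟩
  | un A B w v h _ ih =>
    obtain ⟨u, h1, h2⟩ := ih
    rcases h with ⟨l, h3, h4, h5, rfl⟩ | ⟨a, h3, h4, h5, rfl⟩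
    · rw [h4, h5]
      exact ⟨u, h1, Trs.out l _ _ _ _ _ h3 h2⟩
    · rw [h4, h5]
      exact ⟨a :: u, Yld.term a _ _ h1, Trs.inn a _ _ _ _ _ h3 h2⟩
  | bin A B D w u v h _ _ ih1 ih2 =>
    obtain ⟨rfl, r, hr, h1, h2, h3, h4, h5⟩ := h
    obtain ⟨w1, g1, g2⟩ := ih1
    obtain ⟨w2, g3, g4⟩ := ih2
    rw [h2] at g1
    rw [h3, h4] at g2
    rw [h5] at g4
    rw [h1]
    exact ⟨w1 ++ w2, Yld.nont r _ _ _ hr g1 g3, g2.append g4⟩

theorem Trs.outs {x x1 y : X} {ρ : List Λ} (h : Trs In Out x [] ρ x1) : ∀ {α : C} {ρ' : List Λ},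
    Tr (tlf X C) (tP1 C In Out) (tP2 (Λ := Λ) R C) (x1, α, y) ρ' →
      Tr (tlf X C) (tP1 C In Out) (tP2 (Λ := Λ) R C) (x, α, y) (ρ ++ ρ') := by
  generalize hw : ([] : List T) = w at h
  induction h with
  | nil x => exact fun h => h
  | inn => simp at hw
  | out l x x1 y' w ρ h1 _ ih =>
    intro α ρ' h'
    exact Tr.un _ (x1, α, y) [l] (ρ ++ ρ') (Or.inl ⟨l, h1, rfl, rfl, rfl⟩) (ih hw h')

theorem Yld.tr (hC : Closed R C) {α : List (Symbol T N)} {w : List T} (h : Yld R α w) :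
    ∀ (hα : α ∈ C) (x y : X) (ρ : List Λ), Trs In Out x w ρ y →
      Tr (tlf X C) (tP1 C In Out) (tP2 (Λ := Λ) R C) (x, ⟨α, hα⟩, y) ρ := by
  induction h with
  | nil =>
    intro hα x y ρ h
    have h1 := Trs.outs (y := y) h (α := ⟨[], hα⟩) (ρ' := []) (R := R) (Tr.leaf _ ⟨rfl, rfl⟩)
    rwa [List.append_nil] at h1
  | term a β w _ ih =>
    intro hα x y ρ h
    obtain ⟨x1, x2, ρ1, ρ2, rfl, h1, h2, h3⟩ := Trs.peel h
    have hβ := hC.tail _ _ hα
    exact Trs.outs h1 (Tr.un _ (x2, ⟨β, hβ⟩, y) [] ρ2 (Or.inr ⟨a, h2, rfl, rfl, rfl⟩)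
      (ih hβ x2 y ρ2 h3))
  | nont r β u w hr _ _ ih1 ih2 =>
    intro hα x y ρ h
    obtain ⟨z, ρ1, ρ2, rfl, h1, h2⟩ := Trs.split u h
    have hβ := hC.tail _ _ hα
    exact Tr.bin _ (x, ⟨r.output, hC.out r hr⟩, z) (z, ⟨β, hβ⟩, y) [] ρ1 ρ2
      ⟨rfl, r, hr, rfl, rfl, rfl, rfl, rfl⟩ (ih1 (hC.out r hr) x z ρ1 h1) (ih2 hβ z y ρ2 h2)

end trs

theorem isContextFree_trs {X T Λ : Type} (In : X → T → X → Prop) (Out : X → Λ → X → Prop)
    [Finite X] [Finite Λ] (K : Language T) (hK : K.IsContextFree)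
    (I F : Set X) :
    Language.IsContextFree ({ρ | ∃ x ∈ I, ∃ y ∈ F, ∃ w ∈ K, Trs In Out x w ρ y} : Language Λ) := by
  obtain ⟨g, rfl⟩ := hK
  obtain ⟨C, hCf, hC, hS⟩ := exists_closed (R := {r | r ∈ g.rules})
    (by exact g.rules.finite_toSet) g.initial
  have hf : Finite C := hCf.to_subtype
  have h0 := isContextFree_tr (lf := tlf X C) (P1 := tP1 C In Out)
    (P2 := tP2 (Λ := Λ) (X := X) {r | r ∈ g.rules} C)
    {A : X × C × X | A.1 ∈ I ∧ A.2.1.1 = [Symbol.nonterminal g.initial] ∧ A.2.2 ∈ F}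
    (Set.toFinite _) (Set.toFinite _) (by
      refine Set.Finite.subset (Set.finite_univ.prod (((Set.finite_range
        (fun l : Λ => [l])).union (Set.finite_singleton [])).prod Set.finite_univ)) ?_
      rintro ⟨A, w, B⟩ (⟨l, -, -, -, h⟩ | ⟨a, -, -, -, h⟩)
      · exact ⟨trivial, Or.inl ⟨l, h.symm⟩, trivial⟩
      · exact ⟨trivial, Or.inr h, trivial⟩) (by
      refine Set.Finite.subset (Set.finite_univ.prod ((Set.finite_singleton []).prod
        Set.finite_univ)) ?_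
      rintro ⟨A, w, B, D⟩ ⟨h, -⟩
      exact ⟨trivial, h, trivial⟩)
  refine (congrArg Language.IsContextFree ?_).mp h0
  ext ρ
  constructor
  · rintro ⟨A, ⟨h1, h2, h3⟩, h4⟩
    obtain ⟨w, h5, h6⟩ := h4.trs
    rw [h2] at h5
    exact ⟨A.1, h1, A.2.2, h3, w, mem_language_iff_yld.2 h5, h6⟩
  · rintro ⟨x, hx, y, hy, w, hw, h⟩
    exact ⟨(x, ⟨_, hS⟩, y), ⟨hx, rfl, hy⟩, (mem_language_iff_yld.1 hw).tr hC hS x y ρ h⟩

/-- walks -/
inductive Wk {Z Λ : Type} (zs : Z → Λ → Z → Prop) : Z → List Λ → Z → Prop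
  | nil (z : Z) : Wk zs z [] z
  | cons (l : Λ) (z z1 z' : Z) (ρ : List Λ) : zs z l z1 → Wk zs z1 ρ z' → Wk zs z (l :: ρ) z'

section wk
variable {Z Λ : Type} {zs : Z → Λ → Z → Prop}

theorem Wk.append {z z1 z' : Z} {ρ ρ' : List Λ} (h : Wk zs z ρ z1) (h' : Wk zs z1 ρ' z') :
    Wk zs z (ρ ++ ρ') z' := by
  induction h with
  | nil z => exact h'
  | cons l z z1 z' ρ h1 _ ih => exact Wk.cons l z z1 _ _ h1 (ih h')

theorem Wk.split {ρ : List Λ} : ∀ {z z' : Z} {ρ' : List Λ}, Wk zs z (ρ ++ ρ') z' →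
    ∃ z1, Wk zs z ρ z1 ∧ Wk zs z1 ρ' z' := by
  induction ρ with
  | nil =>
    intro z z' ρ' h
    exact ⟨z, Wk.nil z, h⟩
  | cons l ρ ih =>
    intro z z' ρ' h
    cases h with
    | cons _ _ z1 _ _ h1 h2 =>
      obtain ⟨z2, h3, h4⟩ := ih h2
      exact ⟨z2, Wk.cons l z z1 z2 ρ h1 h3, h4⟩

end wk

/-- reading a letter of the buffer -/
def bIn {Z T : Type} {K : ℕ} (x : Z × {b : List T // b.length ≤ K}) (a : T)
    (x1 : Z × {b : List T // b.length ≤ K}) : Prop :=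
  x1.1 = x.1 ∧ x.2.1 = a :: x1.2.1

/-- writing a letter and filling the buffer -/
def bOut {Z T Λ : Type} {K : ℕ} (zs : Z → Λ → Z → Prop) (val : Λ → List T)
    (x : Z × {b : List T // b.length ≤ K}) (l : Λ) (x1 : Z × {b : List T // b.length ≤ K}) :
    Prop :=
  x.2.1 = [] ∧ zs x.1 l x1.1 ∧ x1.2.1 = val l

/-- Inverse homomorphic images of context-free languages intersected with regular languages are
context-free. -/
theorem isContextFree_inv {Z T Λ : Type} [Finite Z] [Finite T] [Finite Λ] (K : Language T)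
    (hK : K.IsContextFree) (zs : Z → Λ → Z → Prop) (val : Λ → List T) (I F : Set Z) :
    Language.IsContextFree ({ρ | (∃ z ∈ I, ∃ z' ∈ F, Wk zs z ρ z') ∧ ρ.flatMap val ∈ K} :
      Language Λ) := by
  obtain ⟨B, hB⟩ := (Set.finite_range (fun l => (val l).length)).bddAbove
  have hB' : ∀ l, (val l).length ≤ B := fun l => hB ⟨l, rfl⟩
  have hfin : Finite (Z × {b : List T // b.length ≤ B}) := by
    have h4 : Finite {b : List T // b.length ≤ B} := (List.finite_length_le T B).to_subtype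
    infer_instance
  have h0 := isContextFree_trs (bIn (Z := Z) (T := T) (K := B)) (bOut (K := B) zs val) K hK
    {x | x.1 ∈ I ∧ x.2.1 = []} {x | x.1 ∈ F ∧ x.2.1 = []}
  refine (congrArg Language.IsContextFree ?_).mp h0
  have key1 : ∀ (x y : Z × {b : List T // b.length ≤ B}) (w : List T) (ρ : List Λ),
      Trs bIn (bOut zs val) x w ρ y → y.2.1 = [] → Wk zs x.1 ρ y.1 ∧
        w = x.2.1 ++ ρ.flatMap val := by
    intro x y w ρ h
    induction h with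
    | nil x =>
      intro h1
      rw [h1]
      exact ⟨Wk.nil _, rfl⟩
    | inn a x x1 y w ρ h1 _ ih =>
      intro h2
      obtain ⟨h3, h4⟩ := ih h2
      obtain ⟨h5, h6⟩ := h1
      rw [h5] at h3
      rw [h6, h4]
      exact ⟨h3, rfl⟩
    | out l x x1 y w ρ h1 _ ih =>
      intro h2
      obtain ⟨h3, h4⟩ := ih h2
      obtain ⟨h5, h6, h7⟩ := h1
      rw [h5, h4, h7]
      exact ⟨Wk.cons l _ _ _ _ h6 h3, rfl⟩
  have key2 : ∀ (b : List T) (hb : b.length ≤ B) (z : Z) (w : List T) (ρ : List Λ)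
      (y : Z × {b : List T // b.length ≤ B}),
      Trs bIn (bOut zs val) (z, ⟨[], Nat.zero_le B⟩) w ρ y →
        Trs bIn (bOut zs val) (z, ⟨b, hb⟩) (b ++ w) ρ y := by
    intro b
    induction b with
    | nil => exact fun hb z w ρ y h => h
    | cons a b ih =>
      intro hb z w ρ y h
      have hb' : b.length ≤ B := by
        rw [List.length_cons] at hb
        omega
      exact Trs.inn a _ (z, ⟨b, hb'⟩) y _ _ ⟨rfl, rfl⟩ (ih hb' z w ρ y h)
  have key3 : ∀ (z z' : Z) (ρ : List Λ), Wk zs z ρ z' →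
      Trs bIn (bOut zs val) (z, ⟨[], Nat.zero_le B⟩) (ρ.flatMap val) ρ
        (z', ⟨[], Nat.zero_le B⟩) := by
    intro z z' ρ h
    induction h with
    | nil z => exact Trs.nil _
    | cons l z z1 z' ρ h1 _ ih =>
      rw [List.flatMap_cons]
      exact Trs.out l _ (z1, ⟨val l, hB' l⟩) _ _ _ ⟨rfl, h1, rfl⟩ (key2 _ (hB' l) z1 _ _ _ ih)
  ext ρ
  constructor
  · rintro ⟨x, ⟨h1, h2⟩, y, ⟨h3, h4⟩, w, hw, h5⟩
    obtain ⟨h6, h7⟩ := key1 x y w ρ h5 h4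
    rw [h2, List.nil_append] at h7
    rw [h7] at hw
    exact ⟨⟨x.1, h1, y.1, h3, h6⟩, hw⟩
  · rintro ⟨⟨z, hz, z', hz', h⟩, h2⟩
    exact ⟨_, ⟨hz, rfl⟩, _, ⟨hz', rfl⟩, _, h2, key3 z z' ρ h⟩

end Pool.Agent.V11233.FP
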