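import Pool.Agent.V11233.FP.Gnf
import Pool.Agent.V11233.SR.Inc

/-!
The self-regulating automaton of a context-free language with typed letters.
-/

set_option autoImplicit false

namespace Pool.Agent.V11233.FP

open Pool.Agent.V11233.SR

/-- the moves between the states; the turn state is `n + 1` -/
def PM (n q j q' : ℕ) : Prop :=
  (q' = j ∧ j ≤ n ∧ (q = j ∨ (q + 1 = j ∧ 1 ≤ q))) ∨ (q = 0 ∧ j = 0 ∧ q' = n + 1) ∨
    (q = n + 1 ∧ j = 1 ∧ q' = 1 ∧ 1 ≤ n)

/-- paths of states: the phases of the letters, the pairs of states before and after the moves -/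
inductive Pth (n : ℕ) : ℕ → List ℕ → List (ℕ × ℕ) → ℕ → Prop
  | nil (q : ℕ) : Pth n q [] [] q
  | cons (q j q1 : ℕ) (js : List ℕ) (prs : List (ℕ × ℕ)) (q' : ℕ) : PM n q j q1 →
      Pth n q1 js prs q' → Pth n q (j :: js) ((q, q1) :: prs) q'

/-- the relation between the first moves of two successive blocks -/
def RP (n : ℕ) (p p' : ℕ × ℕ) : Prop := (p.1 = 0 ∧ p'.1 = n + 1) ∨ (p.2 = p'.1 ∧ p'.2 ≠ p'.1)

/-- the relation between successive blocks -/
def HR (n : ℕ) (b c : List (ℕ × ℕ)) : Prop :=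
  ∃ p p', b.head? = some p ∧ c.head? = some p' ∧ RP n p p'

/-- the word of the phases -/
def phw (n k : ℕ) : List ℕ := (List.range (n + 1)).flatMap (fun i => List.replicate k i)

theorem phw_eq (n k : ℕ) : phw n k = List.replicate k 0 ++
    (List.range' 1 n).flatMap (fun i => List.replicate k i) := by
  unfold phw
  rw [List.range_eq_range', List.range'_succ, List.flatMap_cons]

section pth
variable {n : ℕ}

theorem Pth.append {q q1 q' : ℕ} {js js' : List ℕ} {prs prs' : List (ℕ × ℕ)}
    (h : Pth n q js prs q1) (h' : Pth n q1 js' prs' q') : Pth n q (js ++ js') (prs ++ prs') q' := by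
  induction h with
  | nil q => exact h'
  | cons q j q1 js prs q' h1 _ ih => exact Pth.cons q j q1 _ _ _ h1 (ih h')

theorem Pth.split {prs : List (ℕ × ℕ)} : ∀ {q q' : ℕ} {js : List ℕ} {prs' : List (ℕ × ℕ)},
    Pth n q js (prs ++ prs') q' → ∃ js1 js2 q1, js = js1 ++ js2 ∧ Pth n q js1 prs q1 ∧
      Pth n q1 js2 prs' q' := by
  induction prs with
  | nil =>
    intro q q' js prs' h
    exact ⟨[], js, q, rfl, Pth.nil q, h⟩
  | cons p prs ih =>
    intro q q' js prs' h
    cases h with
    | cons _ j q1 js _ _ h1 h2 =>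
      obtain ⟨js1, js2, q2, rfl, h3, h4⟩ := ih h2
      exact ⟨j :: js1, js2, q2, rfl, Pth.cons q j q1 js1 prs q2 h1 h3, h4⟩

theorem Pth.stay {j : ℕ} (hj : j ≤ n) (k : ℕ) :
    Pth n j (List.replicate k j) (List.replicate k (j, j)) j := by
  induction k with
  | zero => exact Pth.nil j
  | succ k ih =>
    rw [List.replicate_succ, List.replicate_succ]
    exact Pth.cons j j j _ _ _ (Or.inl ⟨rfl, hj, Or.inl rfl⟩) ih

theorem Pth.mono {q q' : ℕ} {js : List ℕ} {c : List (ℕ × ℕ)} (h : Pth n q js c q') :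
    1 ≤ q → q ≤ n → q ≤ q' ∧ q' ≤ n ∧ (q' = q → js = List.replicate c.length q) := by
  induction h with
  | nil q =>
    intro h1 h2
    exact ⟨le_rfl, h2, fun _ => rfl⟩
  | cons q j q1 js prs q' h1 _ ih =>
    intro h2 h3
    have h4 : q1 = j ∧ q ≤ q1 ∧ q1 ≤ n := by
      rcases h1 with ⟨h5, h6, h7⟩ | ⟨h5, h6, h7⟩ | ⟨h5, h6, h7, h8⟩
      · omega
      · omega
      · omega
    obtain ⟨rfl, h5, h6⟩ := h4
    obtain ⟨h7, h8, h9⟩ := ih (by omega) h6
    refine ⟨by omega, h8, fun h => ?_⟩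
    have h10 : q1 = q := by omega
    subst h10
    rw [List.length_cons, List.replicate_succ, ← h9 h]

/-- the blocks after the first one exist -/
theorem exists_blocks (k : ℕ) (m : ℕ) : ∀ (j q : ℕ) (r : ℕ × ℕ), 1 ≤ j → j + m = n + 1 →
    (q = n + 1 ∧ j = 1 ∧ r.1 = 0 ∨ 1 < j ∧ q + 1 = j ∧ r.2 = q) →
    ∃ Lp : List (List (ℕ × ℕ)), Pth n q ((List.range' j m).flatMap
      (fun i => List.replicate (k + 1) i)) Lp.flatten (if m = 0 then q else n) ∧
      Lp.length = m ∧ (∀ b ∈ Lp, b.length = k + 1) ∧ List.IsChain (HR n) ([r] :: Lp) := by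
  induction m with
  | zero =>
    intro j q r h1 h2 h3
    exact ⟨[], Pth.nil q, rfl, by simp, by simp⟩
  | succ m ih =>
    intro j q r h1 h2 h3
    obtain ⟨Lp, h4, h5, h6, h7⟩ := ih (j + 1) j (q, j) (by omega) (by omega)
      (Or.inr ⟨by omega, rfl, rfl⟩)
    refine ⟨((q, j) :: List.replicate k (j, j)) :: Lp, ?_, ?_, ?_, ?_⟩
    · rw [List.range'_succ, List.flatMap_cons, List.flatten_cons, if_neg (Nat.succ_ne_zero m)]
      have h8 : (if m = 0 then j else n) = n := by
        split_ifs <;> omega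
      rw [h8] at h4
      refine Pth.append ?_ h4
      rw [List.replicate_succ]
      refine Pth.cons q j j _ _ _ ?_ (Pth.stay (by omega) k)
      rcases h3 with ⟨h9, h10, -⟩ | ⟨h9, h10, -⟩
      · exact Or.inr (Or.inr ⟨h9, h10, h10, by omega⟩)
      · exact Or.inl ⟨rfl, by omega, Or.inr ⟨h10, by omega⟩⟩
    · rw [List.length_cons, h5]
    · intro b hb
      rcases List.mem_cons.1 hb with rfl | hb
      · simp
      · exact h6 b hb
    · rw [List.isChain_cons_cons]
      refine ⟨⟨r, (q, j), rfl, rfl, ?_⟩, ?_⟩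
      · rcases h3 with ⟨h9, h10, h11⟩ | ⟨h9, h10, h11⟩
        · exact Or.inl ⟨h11, h9⟩
        · refine Or.inr ⟨h11, ?_⟩
          simp only
          omega
      · rcases Lp with - | ⟨c, Lp⟩
        · simp
        · rw [List.isChain_cons_cons] at h7 ⊢
          exact ⟨h7.1, h7.2⟩

/-- the first block -/
theorem Pth.first {ν : List (ℕ × ℕ)} {p : ℕ × ℕ} {rest : List (ℕ × ℕ)} {f : ℕ}
    (hp : p.2 = n + 1) : ∀ {js : List ℕ}, (∀ x ∈ ν, x.2 ≠ n + 1) →
    Pth n 0 js (ν ++ p :: rest) f → ∃ js', js = List.replicate (ν.length + 1) 0 ++ js' ∧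
      Pth n (n + 1) js' rest f := by
  induction ν with
  | nil =>
    intro js hν h
    cases h with
    | cons _ j q1 js _ _ h1 h2 =>
      simp only at hp
      subst hp
      refine ⟨js, ?_, h2⟩
      rcases h1 with ⟨h5, h6, h7⟩ | ⟨h5, h6, h7⟩ | ⟨h5, h6, h7, h8⟩
      · omega
      · subst h6
        rfl
      · omega
  | cons x ν ih =>
    intro js hν h
    cases h with
    | cons _ j q1 js _ _ h1 h2 =>
      have hx := hν (0, q1) (by simp)
      simp only at hx
      have h3 : q1 = 0 ∧ j = 0 := by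
        rcases h1 with ⟨h5, h6, h7⟩ | ⟨h5, h6, h7⟩ | ⟨h5, h6, h7, h8⟩
        · omega
        · omega
        · omega
      obtain ⟨rfl, rfl⟩ := h3
      obtain ⟨js', rfl, h4⟩ := ih (fun y hy => hν y (by simp [hy])) h2
      exact ⟨js', rfl, h4⟩

/-- the other blocks -/
theorem Pth.blocks {k : ℕ} {Lp : List (List (ℕ × ℕ))} : ∀ {j : ℕ} {c : List (ℕ × ℕ)}
    {js : List ℕ} {r : ℕ × ℕ}, 1 ≤ j → j ≤ n → Pth n j js (c ++ Lp.flatten) n → r.2 = j →
      List.IsChain (HR n) ([r] :: Lp) → Lp.length + j = n → (∀ b ∈ Lp, b.length = k) →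
      js = List.replicate c.length j ++ (List.range' (j + 1) Lp.length).flatMap
        (fun i => List.replicate k i) := by
  induction Lp with
  | nil =>
    intro j c js r h1 h2 h3 h4 h5 h6 h7
    rw [List.flatten_nil, List.append_nil] at h3
    have h8 : n = j := by simpa using h6.symm
    rw [(h3.mono h1 h2).2.2 h8]
    simp
  | cons b Lp ih =>
    intro j c js r h1 h2 h3 h4 h5 h6 h7
    rw [List.isChain_cons_cons] at h5
    obtain ⟨⟨p, s, e1, e2, e3⟩, h5⟩ := h5
    have e1' : r = p := Option.some.inj e1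
    subst e1'
    obtain ⟨c', rfl⟩ : ∃ c', b = s :: c' := by
      rcases b with - | ⟨s', c'⟩
      · simp at e2
      · exact ⟨c', by rw [Option.some.inj e2]⟩
    obtain ⟨js1, js2, q1, rfl, h8, h9⟩ := h3.split
    rw [List.flatten_cons, List.cons_append] at h9
    obtain ⟨h10, h11, h12⟩ := h8.mono h1 h2
    rw [List.length_cons] at h6
    cases h9 with
    | cons _ j1 q2 js3 _ _ h13 h14 =>
      have h15 : q1 = j ∧ q2 = j + 1 ∧ j1 = j + 1 := by
        rcases e3 with ⟨g1, g2⟩ | ⟨g1, g2⟩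
        · simp only at g2
          omega
        · simp only at g1 g2
          rcases h13 with ⟨g5, g6, g7⟩ | ⟨g5, g6, g7⟩ | ⟨g5, g6, g7, g8⟩
          · omega
          · omega
          · omega
      obtain ⟨rfl, rfl, rfl⟩ := h15
      rw [h12 rfl]
      have h16 := ih (j := q1 + 1) (c := c') (js := js3) (r := (q1, q1 + 1)) (by omega) (by omega)
        h14 rfl (by
          rcases Lp with - | ⟨c2, Lp⟩
          · simp
          · rw [List.isChain_cons_cons] at h5 ⊢
            exact ⟨h5.1, h5.2⟩) (by omega) (fun b hb => h7 b (by simp [hb]))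
      have hk := h7 _ (List.mem_cons_self ..)
      rw [List.length_cons] at hk
      rw [h16, List.length_cons, List.range'_succ, List.flatMap_cons, ← hk, List.replicate_succ]
      simp

end pth

/-- the labels of the automaton: tuples of a top symbol, a state, an input, a list of symbols and a
state, which come from a letter -/
def Lb {N Δ S : Type} (n : ℕ) (GR : N → Δ → List N → Prop) (g : Δ → ℕ) (h : Δ → List S) : Type :=
  {x : N × Fin (n + 2) × List S × List N × Fin (n + 2) //
    ∃ a, x.2.2.1 = h a ∧ GR x.1 a x.2.2.2.1.reverse ∧ PM n x.2.1.val (g a) x.2.2.2.2.val}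

theorem Lb_finite {N Δ S : Type} {n : ℕ} {GR : N → Δ → List N → Prop} {g : Δ → ℕ}
    {h : Δ → List S} (hN : Finite N) (hΔ : Finite Δ) (hGR : ∀ A a γ, GR A a γ → γ.length ≤ 2) :
    Finite (Lb n GR g h) := by
  have h1 : {x : N × Fin (n + 2) × List S × List N × Fin (n + 2) |
      ∃ a, x.2.2.1 = h a ∧ GR x.1 a x.2.2.2.1.reverse ∧
        PM n x.2.1.val (g a) x.2.2.2.2.val}.Finite := by
    refine Set.Finite.subset (Set.finite_univ.prod (Set.finite_univ.prod
      ((Set.finite_range h).prod ((List.finite_length_le N 2).prod Set.finite_univ)))) ?_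
    rintro ⟨A, q, w, γ, q'⟩ ⟨a, h1, h2, h3⟩
    refine ⟨trivial, trivial, ⟨a, h1.symm⟩, ?_, trivial⟩
    have := hGR _ _ _ h2
    rwa [List.length_reverse] at this
  exact h1.to_subtype

/-- the states before and after a move -/
def pr {N Δ S : Type} {n : ℕ} {GR : N → Δ → List N → Prop} {g : Δ → ℕ} {h : Δ → List S}
    (r : Lb n GR g h) : ℕ × ℕ := (r.1.2.1.val, r.1.2.2.2.2.val)

/-- The automaton of a grammar all of whose productions generate exactly one letter, with types of
letters given by `g` and with outputs of letters given by `h`. -/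
def mach {N Δ S : Type} (n : ℕ) (GR : N → Δ → List N → Prop) (g : Δ → ℕ) (h : Δ → List S)
    (Z : N) (hN : Finite N) (hL : Finite (Lb n GR g h)) : SPDA S where
  Q := Fin (n + 2)
  Γ := N
  Ψ := Lb n GR g h
  finQ := inferInstance
  finΓ := hN
  finΨ := hL
  top x := x.1.1
  src x := x.1.2.1
  inp x := x.1.2.2.1
  psh x := x.1.2.2.2.1
  tgt x := x.1.2.2.2.2
  rule_inj := by
    intro r s h1 h2 h3 h4 h5
    exact Subtype.ext (Prod.ext h1 (Prod.ext h2 (Prod.ext h3 (Prod.ext h4 h5))))
  q0 := 0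
  qt := Fin.last (n + 1)
  Z0 := Z
  F := {q | (n = 0 ∧ q.val = n + 1) ∨ (n ≠ 0 ∧ q.val = n)}
  R r s := RP n (pr r) (pr s)

section mach
variable {N Δ S : Type} {n : ℕ} {GR : N → Δ → List N → Prop} {g : Δ → ℕ} {h : Δ → List S}
  {Z : N} {hN : Finite N} {hL : Finite (Lb n GR g h)}

/-- the computations -/
def MC (n : ℕ) (GR : N → Δ → List N → Prop) (g : Δ → ℕ) (h : Δ → List S) (Z : N)
    (hN : Finite N) (hL : Finite (Lb n GR g h)) : List N → Fin (n + 2) → List S →
    List (Lb n GR g h) → List N → Fin (n + 2) → List S → Prop :=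
  (mach n GR g h Z hN hL).Comp

theorem MC.nil (α : List N) (q : Fin (n + 2)) (v : List S) :
    MC n GR g h Z hN hL α q v [] α q v := SPDA.Comp.nil (M := mach n GR g h Z hN hL) α q v

theorem MC.cons (r : Lb n GR g h) (α : List N) (v : List S) (μ : List (Lb n GR g h))
    (β : List N) (p : Fin (n + 2)) (u : List S)
    (h1 : MC n GR g h Z hN hL (α ++ r.1.2.2.2.1) r.1.2.2.2.2 v μ β p u) :
    MC n GR g h Z hN hL (α ++ [r.1.1]) r.1.2.1 (r.1.2.2.1 ++ v) (r :: μ) β p u :=
  SPDA.Comp.cons (M := mach n GR g h Z hN hL) r α v μ β p u h1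

theorem MC.cons_inv {r : Lb n GR g h} {α β : List N} {q p : Fin (n + 2)} {v u : List S}
    {μ : List (Lb n GR g h)} (h1 : MC n GR g h Z hN hL α q v (r :: μ) β p u) :
    ∃ α' v', α = α' ++ [r.1.1] ∧ q = r.1.2.1 ∧ v = r.1.2.2.1 ++ v' ∧
      MC n GR g h Z hN hL (α' ++ r.1.2.2.2.1) r.1.2.2.2.2 v' μ β p u :=
  Comp.cons_inv (M := mach n GR g h Z hN hL) h1

theorem MC.nil_inv {α β : List N} {q p : Fin (n + 2)} {v u : List S}
    (h1 : MC n GR g h Z hN hL α q v [] β p u) : α = β ∧ q = p ∧ v = u :=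
  Comp.nil_inv (M := mach n GR g h Z hN hL) h1

theorem run_exists {β : List N} {u : List Δ} (hA : Acc GR β u) :
    ∀ {q q' : Fin (n + 2)} {prs : List (ℕ × ℕ)}, Pth n q.val (u.map g) prs q'.val →
      ∃ μ : List (Lb n GR g h), MC n GR g h Z hN hL β.reverse q (u.flatMap h) μ [] q' [] ∧
        μ.map pr = prs := by
  induction hA with
  | nil =>
    intro q q' prs hP
    generalize hq : q'.val = x at hP
    cases hP with
    | nil =>
      have : q' = q := Fin.ext hq
      subst this
      exact ⟨[], MC.nil _ _ _, rfl⟩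
  | cons A a γ β w hG _ ih =>
    intro q q' prs hP
    rw [List.map_cons] at hP
    cases hP with
    | cons _ _ q1 _ prs _ h1 h2 =>
      have h3 : q1 < n + 2 := by
        rcases h1 with ⟨h5, h6, h7⟩ | ⟨h5, h6, h7⟩ | ⟨h5, h6, h7, h8⟩ <;> omega
      obtain ⟨μ, h4, h5⟩ := ih (q := ⟨q1, h3⟩) h2
      refine ⟨⟨(A, q, h a, γ.reverse, ⟨q1, h3⟩), a, rfl, ?_, h1⟩ :: μ, ?_, ?_⟩
      · simpa using hG
      · rw [List.reverse_cons, List.flatMap_cons]
        refine MC.cons ⟨(A, q, h a, γ.reverse, ⟨q1, h3⟩), a, rfl, by simpa using hG, h1⟩ β.reverse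
          (w.flatMap h) μ [] q' [] ?_
        rwa [List.reverse_append] at h4
      · change _ :: μ.map pr = _
        rw [h5]
        rfl

theorem run_inv (μ : List (Lb n GR g h)) : ∀ {α : List N} {q f : Fin (n + 2)} {v : List S},
    MC n GR g h Z hN hL α q v μ [] f [] → ∃ u, v = u.flatMap h ∧ Acc GR α.reverse u ∧
      Pth n q.val (u.map g) (μ.map pr) f.val := by
  induction μ with
  | nil =>
    intro α q f v hc
    obtain ⟨rfl, rfl, rfl⟩ := hc.nil_inv
    exact ⟨[], rfl, Acc.nil, Pth.nil _⟩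
  | cons r μ ih =>
    intro α q f v hc
    obtain ⟨α', v', rfl, rfl, rfl, h1⟩ := hc.cons_inv
    obtain ⟨u, rfl, h2, h3⟩ := ih h1
    obtain ⟨a, h4, h5, h6⟩ := r.2
    refine ⟨a :: u, ?_, ?_, ?_⟩
    · rw [List.flatMap_cons, h4]
    · rw [List.reverse_append]
      rw [List.reverse_append] at h2
      exact Acc.cons _ a _ _ u h5 h2
    · exact Pth.cons _ _ _ _ _ _ h6 h3

theorem map_flatten_inv {A B : Type} (f : A → B) (Lp : List (List B)) : ∀ μ : List A,
    μ.map f = Lp.flatten → ∃ L : List (List A), μ = L.flatten ∧ L.map (List.map f) = Lp := by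
  induction Lp with
  | nil =>
    intro μ h
    rw [List.flatten_nil, List.map_eq_nil_iff] at h
    subst h
    exact ⟨[], rfl, rfl⟩
  | cons b Lp ih =>
    intro μ h
    rw [List.flatten_cons, List.map_eq_append_iff] at h
    obtain ⟨μ1, μ2, rfl, rfl, h2⟩ := h
    obtain ⟨L, rfl, rfl⟩ := ih μ2 h2
    exact ⟨μ1 :: L, rfl, rfl⟩

theorem headRel_iff (b c : List (Lb n GR g h)) :
    SPDA.HeadRel (mach n GR g h Z hN hL) b c ↔ HR n (b.map pr) (c.map pr) := by
  constructor
  · rintro ⟨r, s, h1, h2, h3⟩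
    refine ⟨pr r, pr s, ?_, ?_, h3⟩
    · rw [List.head?_map]
      exact congrArg (Option.map pr) h1
    · rw [List.head?_map]
      exact congrArg (Option.map pr) h2
  · rintro ⟨p, p', h1, h2, h3⟩
    rw [List.head?_map, Option.map_eq_some_iff] at h1 h2
    obtain ⟨r, h4, rfl⟩ := h1
    obtain ⟨s, h5, rfl⟩ := h2
    exact ⟨r, s, h4, h5, h3⟩

/-- the words accepted by the automaton -/
theorem mem_lang {w : List S} : w ∈ (mach n GR g h Z hN hL).lang n ↔
    ∃ f : Fin (n + 2), ((n = 0 ∧ f.val = n + 1) ∨ (n ≠ 0 ∧ f.val = n)) ∧ ∃ k, 1 ≤ k ∧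
      ∃ (b : List (Lb n GR g h)) (L : List (List (Lb n GR g h))), L.length = n ∧
        (∀ c ∈ b :: L, c.length = k) ∧ MC n GR g h Z hN hL [Z] 0 w (b :: L).flatten [] f [] ∧
        (∃ (ν : List (Lb n GR g h)) (r : Lb n GR g h), b = ν ++ [r] ∧ (pr r).2 = n + 1 ∧
          ∀ s ∈ ν, (pr s).2 ≠ n + 1) ∧
        List.IsChain (fun b c => HR n (b.map pr) (c.map pr)) (b :: L) := by
  constructor
  · rintro ⟨f, hf, k, hk, b, L, h1, h2, h3, ⟨ν, r, h4, h5, h6⟩, h7⟩
    exact ⟨f, hf, k, hk, b, L, h1, h2, h3, ⟨ν, r, h4, congrArg Fin.val h5,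
      fun s hs h => h6 s hs (Fin.ext h)⟩, h7.imp (fun b c h => (headRel_iff b c).1 h)⟩
  · rintro ⟨f, hf, k, hk, b, L, h1, h2, h3, ⟨ν, r, h4, h5, h6⟩, h7⟩
    exact ⟨f, hf, k, hk, b, L, h1, h2, h3, ⟨ν, r, h4, Fin.ext h5,
      fun s hs h => h6 s hs (congrArg Fin.val h)⟩,
      h7.imp (fun b c h => (headRel_iff (Z := Z) (hN := hN) (hL := hL) b c).2 h)⟩

/-- the language of the automaton -/
theorem mach_lang : (mach n GR g h Z hN hL).lang n =
    {w | ∃ u, Acc GR [Z] u ∧ w = u.flatMap h ∧ ∃ k, 1 ≤ k ∧ u.map g = phw n k} := by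
  ext w
  constructor
  · intro hw
    obtain ⟨f, hf, k, hk, b, L, hL1, hL2, hcomp, ⟨ν, r, hb, hr2, hν⟩, hchain⟩ := mem_lang.1 hw
    obtain ⟨u, hu1, hu2, hu3⟩ := run_inv (Z := Z) (hN := hN) (hL := hL) (b :: L).flatten hcomp
    refine ⟨u, hu2, hu1, k, hk, ?_⟩
    have hchain' : List.IsChain (HR n) ((b :: L).map (List.map pr)) :=
      (List.isChain_map _).2 hchain
    rw [List.map_cons] at hchain'
    rw [phw_eq]
    have hlen : ∀ c ∈ L.map (List.map pr), c.length = k := by
      intro c hc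
      rw [List.mem_map] at hc
      obtain ⟨c', hc', rfl⟩ := hc
      rw [List.length_map]
      exact hL2 c' (List.mem_cons_of_mem _ hc')
    have hbk : b.length = k := hL2 b (List.mem_cons_self ..)
    have hLp : (L.map (List.map pr)).length = n := by
      rw [List.length_map]
      exact hL1
    rw [List.flatten_cons, List.map_append, List.map_flatten, hb] at hu3
    rw [hb, List.length_append, List.length_singleton] at hbk
    have hu3' : Pth n 0 (u.map g) (ν.map pr ++ pr r :: (L.map (List.map pr)).flatten) f.val := by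
      rw [List.map_append, List.append_assoc] at hu3
      exact hu3
    obtain ⟨js', h3, h4⟩ := hu3'.first hr2 (by
      intro x hx
      rw [List.mem_map] at hx
      obtain ⟨s, hs, rfl⟩ := hx
      exact hν s hs)
    rw [h3, List.length_map, hbk]
    congr 1
    rcases Nat.eq_zero_or_pos n with hn | hn
    · have hL0 : L = [] := by
        apply List.eq_nil_of_length_eq_zero
        omega
      subst hL0
      generalize hrest : (([] : List (List (Lb n GR g h))).map (List.map pr)).flatten = rest at h4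
      generalize hfv : f.val = x at h4
      cases h4 with
      | nil =>
        subst hn
        rfl
      | cons => simp at hrest
    · obtain ⟨c, Lp, hLc⟩ : ∃ c Lp, L.map (List.map pr) = c :: Lp := by
        rcases hh : L.map (List.map pr) with - | ⟨c, Lp⟩
        · rw [hh] at hLp
          simp at hLp
          omega
        · exact ⟨c, Lp, rfl⟩
      rw [hLc] at h4 hLp hlen hchain'
      have hck : c.length = k := hlen c (List.mem_cons_self ..)
      obtain ⟨s, c', rfl⟩ : ∃ s c', c = s :: c' := by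
        rcases c with - | ⟨s, c'⟩
        · simp at hck
          omega
        · exact ⟨s, c', rfl⟩
      have hfn : f.val = n := by
        rcases hf with ⟨h5, h6⟩ | ⟨h5, h6⟩
        · omega
        · exact h6
      rw [List.flatten_cons, List.cons_append, hfn] at h4
      rw [List.isChain_cons_cons] at hchain'
      rw [List.length_cons] at hLp hck
      cases h4 with
      | cons _ j1 q2 js3 _ _ h13 h14 =>
        have h15 : q2 = 1 ∧ j1 = 1 := by
          rcases h13 with ⟨g5, g6, g7⟩ | ⟨g5, g6, g7⟩ | ⟨g5, g6, g7, g8⟩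
          · omega
          · omega
          · omega
        obtain ⟨rfl, rfl⟩ := h15
        have h16 := Pth.blocks (n := n) (k := k) (Lp := Lp) (j := 1) (c := c') (js := js3)
          (r := (n + 1, 1)) le_rfl hn h14 rfl (by
            rcases Lp with - | ⟨c2, Lp⟩
            · simp
            · rw [List.isChain_cons_cons] at hchain' ⊢
              exact ⟨hchain'.2.1, hchain'.2.2⟩) (by omega)
            (fun b hb => hlen b (List.mem_cons_of_mem _ hb))
        rw [h16]
        obtain ⟨n', rfl⟩ : ∃ n', n = n' + 1 := ⟨n - 1, by omega⟩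
        have hLn : Lp.length = n' := by omega
        rw [List.range'_succ, List.flatMap_cons, ← hck, List.replicate_succ, hLn, hck]
        rfl
  · rintro ⟨u, hu, rfl, k, hk, hu2⟩
    obtain ⟨k, rfl⟩ : ∃ k', k = k' + 1 := ⟨k - 1, by omega⟩
    obtain ⟨Lp, h1, h2, h3, h4⟩ := exists_blocks (n := n) k n 1 (n + 1) (0, n + 1) le_rfl (by omega)
      (Or.inl ⟨rfl, rfl, rfl⟩)
    obtain ⟨pb, hpb⟩ : ∃ pb : List (ℕ × ℕ), pb = List.replicate k (0, 0) ++ [(0, n + 1)] := ⟨_, rfl⟩
    have h5 : Pth n 0 (List.replicate (k + 1) 0) pb (n + 1) := by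
      rw [hpb, List.replicate_succ']
      exact (Pth.stay (Nat.zero_le n) k).append
        (Pth.cons 0 0 (n + 1) _ _ _ (Or.inr (Or.inl ⟨rfl, rfl, rfl⟩)) (Pth.nil _))
    have h6 := h5.append h1
    rw [phw_eq] at hu2
    rw [← hu2] at h6
    obtain ⟨f, hf⟩ : ∃ f : Fin (n + 2), f.val = if n = 0 then n + 1 else n :=
      ⟨⟨if n = 0 then n + 1 else n, by split_ifs <;> omega⟩, rfl⟩
    rw [← hf] at h6
    obtain ⟨μ, h7, h8⟩ := run_exists (Z := Z) (hN := hN) (hL := hL) (h := h) (GR := GR) hu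
      (q := 0) h6
    have h8' : μ.map pr = (pb :: Lp).flatten := by
      rw [h8]
      rfl
    obtain ⟨L, rfl, h9⟩ := map_flatten_inv pr (pb :: Lp) μ h8'
    obtain ⟨b, L, rfl⟩ : ∃ b L', L = b :: L' := by
      rcases L with - | ⟨b, L⟩
      · simp at h9
      · exact ⟨b, L, rfl⟩
    rw [List.map_cons, List.cons.injEq] at h9
    obtain ⟨h9, h10⟩ := h9
    refine mem_lang.2 ⟨f, ?_, k + 1, by omega, b, L, ?_, ?_, h7, ?_, ?_⟩
    · rw [hf]
      split_ifs with hn
      · exact Or.inl ⟨hn, rfl⟩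
      · exact Or.inr ⟨hn, rfl⟩
    · have := congrArg List.length h10
      rw [List.length_map, h2] at this
      exact this
    · intro c hc
      rcases List.mem_cons.1 hc with rfl | hc
      · have := congrArg List.length h9
        rw [List.length_map, hpb] at this
        simpa using this
      · have h11 : c.map pr ∈ Lp := by
          rw [← h10]
          exact List.mem_map_of_mem hc
        have := h3 _ h11
        rwa [List.length_map] at this
    · rw [hpb, List.map_eq_append_iff] at h9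
      obtain ⟨ν, b', rfl, h12, h13⟩ := h9
      rw [List.map_eq_singleton_iff] at h13
      obtain ⟨r, rfl, h14⟩ := h13
      refine ⟨ν, r, rfl, by rw [h14], ?_⟩
      intro s hs
      have h16 : pr s ∈ List.replicate k (0, 0) := by
        rw [← h12]
        exact List.mem_map_of_mem hs
      rw [List.eq_of_mem_replicate h16]
      simp only
      omega
    · have h20 : List.IsChain (HR n) ((b :: L).map (List.map pr)) → List.IsChain
        (fun b c => HR n (b.map pr) (c.map pr)) (b :: L) := (List.isChain_map _).1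
      apply h20
      rw [List.map_cons, h9, h10, hpb]
      rcases Lp with - | ⟨c, Lp⟩
      · simp
      · rw [List.isChain_cons_cons] at h4 ⊢
        refine ⟨?_, h4.2⟩
        obtain ⟨p, p', e1, e2, e3⟩ := h4.1
        have e1' : p = (0, n + 1) := (Option.some.inj e1).symm
        subst e1'
        obtain ⟨x, hx, hx0⟩ : ∃ x, (List.replicate k (0, 0) ++ [(0, n + 1)]).head? = some x ∧
            x.1 = 0 := by
          rcases k with - | k
          · exact ⟨(0, n + 1), rfl, rfl⟩
          · exact ⟨(0, 0), rfl, rfl⟩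
        refine ⟨x, p', hx, e2, Or.inl ⟨hx0, ?_⟩⟩
        rcases e3 with ⟨-, e3⟩ | ⟨e3, -⟩
        · exact e3
        · exact e3.symm

end mach

end Pool.Agent.V11233.FP
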