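import Pool.Agent.V11233.FP.ToCF
import Pool.Agent.V11233.FP.Inv

/-!
Parallel right linear grammars.
-/

set_option autoImplicit false

namespace Pool.Agent.V11233.FP

open Pool.Agent.V11233.SR

/-- An `(n+1)`-parallel right linear grammar over the alphabet `T`: `N` is the set of nonterminals,
`X ∈ start` stands for the production `S → X 0 ⋯ X n`, and `rules i` is the finite set of the
productions of the `i`-th component: `(X, w, some Y)` is `X → w Y` and `(X, w, none)` is `X → w`. -/
structure PRLG (n : ℕ) (T : Type) where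
  N : Type
  finN : Finite N
  start : Set (Fin (n + 1) → N)
  rules : Fin (n + 1) → Set (N × List T × Option N)
  finR : ∀ i, (rules i).Finite

/-- `G.Der X v`: the sentential form `X 0 ⋯ X n` derives `v 0 ⋯ v n`, where in every step all the
nonterminals are rewritten simultaneously. -/
inductive PRLG.Der {n : ℕ} {T : Type} (G : PRLG n T) :
    (Fin (n + 1) → G.N) → (Fin (n + 1) → List T) → Prop
  | last (X : Fin (n + 1) → G.N) (u : Fin (n + 1) → List T) :
      (∀ i, (X i, u i, none) ∈ G.rules i) → PRLG.Der G X u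
  | step (X Y : Fin (n + 1) → G.N) (u v : Fin (n + 1) → List T) :
      (∀ i, (X i, u i, some (Y i)) ∈ G.rules i) → PRLG.Der G Y v →
      PRLG.Der G X (fun i => u i ++ v i)

/-- the language of the grammar -/
def PRLG.lang {n : ℕ} {T : Type} (G : PRLG n T) : Set (List T) :=
  {w | ∃ X ∈ G.start, ∃ v, G.Der X v ∧ w = (List.ofFn v).flatten}

section prl
variable {n : ℕ} {T : Type} {G : PRLG n T}

/-- derivations of a component -/
inductive DC (G : PRLG n T) (i : Fin (n + 1)) : G.N → ℕ → List T → Prop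
  | last (X : G.N) (u : List T) : (X, u, none) ∈ G.rules i → DC G i X 1 u
  | step (X Y : G.N) (u : List T) (k : ℕ) (v : List T) : (X, u, some Y) ∈ G.rules i →
      DC G i Y k v → DC G i X (k + 1) (u ++ v)

theorem DC.pos {i : Fin (n + 1)} {X : G.N} {k : ℕ} {v : List T} (h : DC G i X k v) : 1 ≤ k := by
  cases h <;> omega

theorem Der.dc {X : Fin (n + 1) → G.N} {v : Fin (n + 1) → List T} (h : G.Der X v) :
    ∃ k, 1 ≤ k ∧ ∀ i, DC G i (X i) k (v i) := by
  induction h with
  | last X u h => exact ⟨1, le_rfl, fun i => DC.last _ _ (h i)⟩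
  | step X Y u v h _ ih =>
    obtain ⟨k, hk, h1⟩ := ih
    exact ⟨k + 1, by omega, fun i => DC.step _ _ _ _ _ (h i) (h1 i)⟩

theorem dc_der (k : ℕ) : ∀ (X : Fin (n + 1) → G.N) (v : Fin (n + 1) → List T),
    (∀ i, DC G i (X i) (k + 1) (v i)) → G.Der X v := by
  induction k with
  | zero =>
    intro X v h
    refine PRLG.Der.last X v (fun i => ?_)
    have h1 := h i
    generalize hk : 0 + 1 = k at h1
    generalize v i = vi at h1 ⊢
    cases h1 with
    | last _ _ h2 => exact h2
    | step _ Y u k v h2 h3 =>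
      have := h3.pos
      omega
  | succ k ih =>
    intro X v h
    have h1 : ∀ i, ∃ Y u v', v i = u ++ v' ∧ (X i, u, some Y) ∈ G.rules i ∧
        DC G i Y (k + 1) v' := by
      intro i
      have h2 := h i
      generalize hk : k + 1 + 1 = k' at h2
      generalize v i = vi at h2 ⊢
      cases h2 with
      | last _ _ h2 => omega
      | step _ Y u k'' v' h2 h3 =>
        have : k'' = k + 1 := by omega
        subst this
        exact ⟨Y, u, v', rfl, h2, h3⟩
    choose Y u v' h2 h3 h4 using h1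
    have h5 : v = fun i => u i ++ v' i := funext h2
    rw [h5]
    exact PRLG.Der.step X Y u v' h3 (ih Y v' h4)

theorem lang_iff {w : List T} : w ∈ G.lang ↔ ∃ X ∈ G.start, ∃ k, 1 ≤ k ∧ ∃ v,
    (∀ i, DC G i (X i) k (v i)) ∧ w = (List.ofFn v).flatten := by
  constructor
  · rintro ⟨X, hX, v, h, rfl⟩
    obtain ⟨k, hk, h1⟩ := Der.dc h
    exact ⟨X, hX, k, hk, v, h1, rfl⟩
  · rintro ⟨X, hX, k, hk, v, h, rfl⟩
    obtain ⟨k', rfl⟩ : ∃ k', k = k' + 1 := ⟨k - 1, by omega⟩
    exact ⟨X, hX, v, dc_der k' X v h, rfl⟩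

/-- `w` is the concatenation of the values of a function on an interval -/
theorem ofFn_flatten (v : ℕ → List T) :
    (List.ofFn (fun i : Fin (n + 1) => v i.val)).flatten = (List.range' 0 (n + 1)).flatMap v := by
  rw [← List.range_eq_range', List.ofFn_eq_map, ← List.map_coe_finRange_eq_range, List.flatMap_map,
    List.flatMap_def]

/-- typed productions -/
abbrev TP (G : PRLG n T) : Type := {l : Fin (n + 1) × (G.N × List T × Option G.N) //
  l.2 ∈ G.rules l.1}

/-- the states of the control -/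
abbrev ZC (G : PRLG n T) : Type := (Fin (n + 1) → G.N) × Fin (n + 2) × Option G.N

/-- the moves of the control -/
def zC (G : PRLG n T) (z : ZC G) (l : TP G) (z' : ZC G) : Prop :=
  z'.1 = z.1 ∧ z'.2.2 = l.1.2.2.2 ∧ z'.2.1.val = l.1.1.val + 1 ∧
    ((z.2.2 = some l.1.2.1 ∧ z.2.1.val = l.1.1.val + 1) ∨
      (z.2.2 = none ∧ z.2.1.val = l.1.1.val ∧ l.1.2.1 = z.1 l.1.1))

/-- the words of the productions -/
def vC (G : PRLG n T) (l : TP G) : List T := l.1.2.2.1

theorem TP_finite (G : PRLG n T) : Finite (TP G) := by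
  have h : {l : Fin (n + 1) × (G.N × List T × Option G.N) | l.2 ∈ G.rules l.1}.Finite := by
    refine Set.Finite.subset (Set.finite_univ.prod (Set.finite_iUnion G.finR)) ?_
    rintro ⟨i, r⟩ h
    exact ⟨trivial, Set.mem_iUnion.2 ⟨i, h⟩⟩
  exact h.to_subtype

theorem Wk.comp_inv {i : Fin (n + 1)} {σ : Fin (n + 1) → G.N} {z' : ZC G} {ρ : List (TP G)} :
    ∀ {z : ZC G}, Wk (zC G) z ρ z' → z.1 = σ → z.2.1.val = i.val + 1 → z'.2.2 = none →
      (∀ l ∈ ρ, l.1.1.val = i.val) → z'.1 = σ ∧ z'.2.1.val = i.val + 1 ∧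
        ((z.2.2 = none ∧ ρ = []) ∨ ∃ X, z.2.2 = some X ∧ DC G i X ρ.length
          (ρ.flatMap (vC G))) := by
  induction ρ with
  | nil =>
    intro z h h1 h2 h3 h4
    cases h with
    | nil => exact ⟨h1, h2, Or.inl ⟨h3, rfl⟩⟩
  | cons l ρ ih =>
    intro z h h1 h2 h3 h4
    cases h with
    | cons _ _ z1 _ _ g1 g2 =>
      obtain ⟨e1, e2, e3, e4⟩ := g1
      have h5 : l.1.1.val = i.val := h4 l (by simp)
      have h5' : l.1.1 = i := Fin.ext h5
      obtain ⟨f1, f2, f3⟩ := ih g2 (e1.trans h1) (by omega) h3 (fun l' hl' => h4 l' (by simp [hl']))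
      refine ⟨f1, f2, Or.inr ?_⟩
      rcases e4 with ⟨e4, e5⟩ | ⟨e4, e5, e6⟩
      · refine ⟨_, e4, ?_⟩
        have hl := l.2
        rw [h5'] at hl
        rcases f3 with ⟨f3, f4⟩ | ⟨Y, f3, f4⟩
        · subst f4
          rw [e2] at f3
          have h6 : (l.1.2.1, l.1.2.2.1, (none : Option G.N)) ∈ G.rules i := by
            rw [← f3]
            exact hl
          have h7 := DC.last _ _ h6
          simpa [vC] using h7
        · rw [e2] at f3
          have h6 : (l.1.2.1, l.1.2.2.1, some Y) ∈ G.rules i := by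
            rw [← f3]
            exact hl
          have h7 := DC.step _ _ _ _ _ h6 f4
          rw [List.flatMap_cons, List.length_cons]
          exact h7
      · exfalso
        omega

theorem Wk.start_inv {i : Fin (n + 1)} {σ : Fin (n + 1) → G.N} {z z' : ZC G} {ρ : List (TP G)}
    (h : Wk (zC G) z ρ z') (h1 : z.1 = σ) (h2 : z.2.1.val = i.val) (h3 : z'.2.2 = none)
    (h4 : ∀ l ∈ ρ, l.1.1.val = i.val) (h5 : ρ ≠ []) : z'.1 = σ ∧ z'.2.1.val = i.val + 1 ∧
      DC G i (σ i) ρ.length (ρ.flatMap (vC G)) := by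
  cases h with
  | nil => exact absurd rfl h5
  | cons l _ z1 _ ρ g1 g2 =>
    obtain ⟨e1, e2, e3, e4⟩ := g1
    have h5 : l.1.1.val = i.val := h4 l (by simp)
    have h5' : l.1.1 = i := Fin.ext h5
    obtain ⟨f1, f2, f3⟩ := Wk.comp_inv g2 (e1.trans h1) (by omega) h3
      (fun l' hl' => h4 l' (by simp [hl']))
    refine ⟨f1, f2, ?_⟩
    rcases e4 with ⟨e4, e5⟩ | ⟨e4, e5, e6⟩
    · exfalso
      omega
    · rw [h1, h5'] at e6
      have hl := l.2
      rw [h5'] at hl
      rw [← e6]
      rcases f3 with ⟨f3, f4⟩ | ⟨Y, f3, f4⟩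
      · subst f4
        rw [e2] at f3
        have h6 : (l.1.2.1, l.1.2.2.1, (none : Option G.N)) ∈ G.rules i := by
          rw [← f3]
          exact hl
        have h7 := DC.last _ _ h6
        simpa [vC] using h7
      · rw [e2] at f3
        have h6 : (l.1.2.1, l.1.2.2.1, some Y) ∈ G.rules i := by
          rw [← f3]
          exact hl
        have h7 := DC.step _ _ _ _ _ h6 f4
        rw [List.flatMap_cons, List.length_cons]
        exact h7

theorem Wk.last_type {i : ℕ} {z z' : ZC G} {ρ : List (TP G)} (h : Wk (zC G) z ρ z') :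
    ρ ≠ [] → (∀ l ∈ ρ, l.1.1.val = i) → z'.2.1.val = i + 1 := by
  induction h with
  | nil z => exact fun h => absurd rfl h
  | cons l z z1 z' ρ h1 h2 ih =>
    intro _ h4
    rcases eq_or_ne ρ [] with rfl | hρ
    · cases h2 with
      | nil =>
        have := h4 l (by simp)
        have := h1.2.2.1
        omega
    · exact ih hρ (fun l' hl' => h4 l' (by simp [hl']))

/-- decomposition of an accepting walk -/
theorem Wk.decomp {k : ℕ} (hk : 1 ≤ k) (m : ℕ) : ∀ {i : ℕ} {σ : Fin (n + 1) → G.N} {z z' : ZC G}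
    {ρ : List (TP G)}, Wk (zC G) z ρ z' → i + m = n + 1 → z.1 = σ → z.2.1.val = i →
      z.2.2 = none → z'.2.2 = none → ρ.map (fun l => l.1.1.val) =
        (List.range' i m).flatMap (fun i => List.replicate k i) →
      ∃ v : ℕ → List T, ρ.flatMap (vC G) = (List.range' i m).flatMap v ∧
        ∀ j : Fin (n + 1), i ≤ j.val → DC G j (σ j) k (v j.val) := by
  induction m with
  | zero =>
    intro i σ z z' ρ h h1 h2 h3 h4 h5 h6
    have h7 : ρ = [] := by simpa using h6
    subst h7
    refine ⟨fun _ => [], rfl, ?_⟩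
    intro j hj
    have := j.2
    omega
  | succ m ih =>
    intro i σ z z' ρ h h1 h2 h3 h4 h5 h6
    rw [List.range'_succ, List.flatMap_cons, List.map_eq_append_iff] at h6
    obtain ⟨ρ1, ρ2, rfl, h7, h8⟩ := h6
    obtain ⟨z1, h9, h10⟩ := Wk.split h
    have hlen : ρ1.length = k := by
      have := congrArg List.length h7
      simpa using this
    have hne : ρ1 ≠ [] := by
      rintro rfl
      simp at hlen
      omega
    have hty : ∀ l ∈ ρ1, l.1.1.val = i := by
      intro l hl
      have h11 : l.1.1.val ∈ List.replicate k i := by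
        rw [← h7]
        exact List.mem_map_of_mem (f := fun l : TP G => l.1.1.val) hl
      exact List.eq_of_mem_replicate h11
    have hlast := Wk.last_type h9 hne hty
    have hz1 : z1.2.2 = none := by
      rcases Nat.eq_zero_or_pos m with hm | hm
      · subst hm
        have h12 : ρ2 = [] := by simpa using h8
        subst h12
        cases h10 with
        | nil => exact h5
      · obtain ⟨m', rfl⟩ : ∃ m', m = m' + 1 := ⟨m - 1, by omega⟩
        obtain ⟨k', rfl⟩ : ∃ k', k = k' + 1 := ⟨k - 1, by omega⟩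
        cases h10 with
        | nil =>
          rw [List.range'_succ, List.flatMap_cons, List.replicate_succ] at h8
          simp at h8
        | cons l _ z2 _ ρ2 g1 g2 =>
          rw [List.range'_succ, List.flatMap_cons, List.replicate_succ, List.map_cons,
            List.cons_append, List.cons.injEq] at h8
          obtain ⟨h8, -⟩ := h8
          obtain ⟨e1, e2, e3, e4⟩ := g1
          rcases e4 with ⟨e4, e5⟩ | ⟨e4, e5, e6⟩
          · exfalso
            omega
          · exact e4
    obtain ⟨i', hi'⟩ : ∃ i' : Fin (n + 1), i'.val = i := ⟨⟨i, by omega⟩, rfl⟩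
    obtain ⟨f1, f2, f3⟩ := Wk.start_inv (i := i') h9 h2 (by omega) hz1
      (fun l hl => by rw [hi']; exact hty l hl) hne
    obtain ⟨v, h13, h14⟩ := ih h10 (by omega) f1 (by omega) hz1 h5 h8
    refine ⟨fun j => if j = i then ρ1.flatMap (vC G) else v j, ?_, ?_⟩
    · rw [List.flatMap_append, List.range'_succ, List.flatMap_cons, if_pos rfl, h13]
      congr 1
      rw [List.flatMap_def, List.flatMap_def]
      congr 1
      refine List.map_congr_left ?_
      intro j hj
      rw [List.mem_range'_1] at hj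
      have : j ≠ i := by omega
      rw [if_neg this]
    · intro j hj
      rcases Nat.eq_or_lt_of_le hj with hj' | hj'
      · have : j = i' := Fin.ext (by omega)
        subst this
        simp only
        rw [if_pos hi']
        rw [hlen] at f3
        exact f3
      · simp only
        rw [if_neg (by omega)]
        exact h14 j (by omega)

/-- the walk of a derivation of a component -/
theorem DC.walk {i : Fin (n + 1)} {X : G.N} {k : ℕ} {v : List T} (h : DC G i X k v) :
    ∀ (z : ZC G), ((z.2.2 = some X ∧ z.2.1.val = i.val + 1) ∨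
      (z.2.2 = none ∧ z.2.1.val = i.val ∧ X = z.1 i)) →
      ∃ (ρ : List (TP G)) (z' : ZC G), ρ.map (fun l => l.1.1.val) = List.replicate k i.val ∧
        ρ.flatMap (vC G) = v ∧ Wk (zC G) z ρ z' ∧ z'.1 = z.1 ∧ z'.2.1.val = i.val + 1 ∧
        z'.2.2 = none := by
  induction h with
  | last X u h =>
    intro z hz
    have hlt : i.val + 1 < n + 2 := by have := i.2; omega
    refine ⟨[⟨(i, (X, u, none)), h⟩], (z.1, ⟨i.val + 1, hlt⟩, none), rfl, by simp [vC], ?_, rfl,
      rfl, rfl⟩
    exact Wk.cons _ _ (z.1, ⟨i.val + 1, hlt⟩, none) _ _ ⟨rfl, rfl, rfl, hz⟩ (Wk.nil _)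
  | step X Y u k v h _ ih =>
    intro z hz
    have hlt : i.val + 1 < n + 2 := by have := i.2; omega
    obtain ⟨ρ, z', h1, h2, h3, h4, h5, h6⟩ := ih (z.1, ⟨i.val + 1, hlt⟩, some Y)
      (Or.inl ⟨rfl, rfl⟩)
    refine ⟨⟨(i, (X, u, some Y)), h⟩ :: ρ, z', ?_, ?_, ?_, h4, h5, h6⟩
    · rw [List.map_cons, h1]
      rfl
    · rw [List.flatMap_cons, h2]
      rfl
    · exact Wk.cons _ _ (z.1, ⟨i.val + 1, hlt⟩, some Y) _ _ ⟨rfl, rfl, rfl, hz⟩ h3

/-- the walk of a derivation -/
theorem exists_walk {k : ℕ} (m : ℕ) : ∀ {i : ℕ} {σ : Fin (n + 1) → G.N} {z : ZC G}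
    {v : ℕ → List T}, i + m = n + 1 → z.1 = σ → z.2.1.val = i → z.2.2 = none →
      (∀ j : Fin (n + 1), i ≤ j.val → DC G j (σ j) k (v j.val)) →
      ∃ (ρ : List (TP G)) (z' : ZC G), ρ.map (fun l => l.1.1.val) =
        (List.range' i m).flatMap (fun i => List.replicate k i) ∧
        ρ.flatMap (vC G) = (List.range' i m).flatMap v ∧ Wk (zC G) z ρ z' ∧
        z'.2.2 = none := by
  induction m with
  | zero =>
    intro i σ z v h1 h2 h3 h4 h5
    exact ⟨[], z, rfl, rfl, Wk.nil _, h4⟩
  | succ m ih =>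
    intro i σ z v h1 h2 h3 h4 h5
    obtain ⟨i', hi'⟩ : ∃ i' : Fin (n + 1), i'.val = i := ⟨⟨i, by omega⟩, rfl⟩
    obtain ⟨ρ1, z1, g1, g2, g3, g4, g5, g6⟩ := (h5 i' (by omega)).walk z
      (Or.inr ⟨h4, by omega, by rw [h2]⟩)
    obtain ⟨ρ2, z2, e1, e2, e3, e4⟩ := ih (i := i + 1) (σ := σ) (z := z1) (v := v) (by omega)
      (g4.trans h2) (by omega) g6 (fun j hj => h5 j (by omega))
    refine ⟨ρ1 ++ ρ2, z2, ?_, ?_, g3.append e3, e4⟩
    · rw [List.map_append, g1, e1, List.range'_succ, List.flatMap_cons, hi']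
    · rw [List.flatMap_append, g2, e2, List.range'_succ, List.flatMap_cons, hi']

end prl

end Pool.Agent.V11233.FP
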