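import Pool.Agent.V11233.FP.Mach
import Pool.Agent.V11233.SR.Ann

/-!
The context-free language of the annotated computations of a self-regulating automaton.
-/

set_option autoImplicit false

namespace Pool.Agent.V11233.FP

open Pool.Agent.V11233.SR

section runs
variable {X Γ Δ : Type}

/-- computations of a pushdown automaton emptying the pushdown (top on the left) -/
inductive Rn (St : X → Δ → X → Prop) (tp : Δ → Γ) (ps : Δ → List Γ) :
    List Γ → X → List Δ → X → Prop
  | nil (x : X) : Rn St tp ps [] x [] x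
  | cons (d : Δ) (β : List Γ) (x x1 y : X) (μ : List Δ) : St x d x1 →
      Rn St tp ps (ps d ++ β) x1 μ y → Rn St tp ps (tp d :: β) x (d :: μ) y

/-- trees of computations -/
inductive RT (St : X → Δ → X → Prop) (tp : Δ → Γ) (ps : Δ → List Γ) :
    X → List Γ → List Δ → X → Prop
  | nil (x : X) : RT St tp ps x [] [] x
  | node (d : Δ) (β : List Γ) (x x1 z y : X) (u v : List Δ) : St x d x1 →
      RT St tp ps x1 (ps d) u z → RT St tp ps z β v y →
      RT St tp ps x (tp d :: β) (d :: (u ++ v)) y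

variable {St : X → Δ → X → Prop} {tp : Δ → Γ} {ps : Δ → List Γ}

theorem RT.split (β1 : List Γ) : ∀ {β2 : List Γ} {x y : X} {v : List Δ},
    RT St tp ps x (β1 ++ β2) v y →
      ∃ z v1 v2, RT St tp ps x β1 v1 z ∧ RT St tp ps z β2 v2 y ∧ v = v1 ++ v2 := by
  induction β1 with
  | nil =>
    intro β2 x y v h
    exact ⟨x, [], v, RT.nil x, h, rfl⟩
  | cons Z β1 ih =>
    intro β2 x y v h
    cases h with
    | node d _ _ x1 z _ u v h1 h2 h3 =>
      obtain ⟨z', v1, v2, h4, h5, rfl⟩ := ih h3
      exact ⟨z', _, v2, RT.node d β1 x x1 z z' u v1 h1 h2 h4, h5, by simp⟩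

theorem Rn.tree {β : List Γ} {x y : X} {μ : List Δ} (h : Rn St tp ps β x μ y) :
    RT St tp ps x β μ y := by
  induction h with
  | nil x => exact RT.nil x
  | cons d β x x1 y μ h1 _ ih =>
    obtain ⟨z, v1, v2, h2, h3, rfl⟩ := RT.split _ ih
    exact RT.node d β x x1 z y v1 v2 h1 h2 h3

theorem Rn.append {β β' : List Γ} {x y z : X} {μ μ' : List Δ} (h : Rn St tp ps β x μ y)
    (h' : Rn St tp ps β' y μ' z) : Rn St tp ps (β ++ β') x (μ ++ μ') z := by
  induction h with
  | nil x => exact h'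
  | cons d β x x1 y μ h1 _ ih =>
    have h2 := ih h'
    rw [List.append_assoc] at h2
    exact Rn.cons d (β ++ β') x x1 z _ h1 h2

/-- the leaves -/
def rlf (X Γ : Type) (K : ℕ) (A : X × {l : List Γ // l.length ≤ K} × X) : Prop :=
  A.2.1.1 = [] ∧ A.1 = A.2.2

/-- the productions -/
def rP (St : X → Δ → X → Prop) (tp : Δ → Γ) (ps : Δ → List Γ) (K : ℕ)
    (A : X × {l : List Γ // l.length ≤ K} × X) (w : List Δ)
    (B C : X × {l : List Γ // l.length ≤ K} × X) : Prop :=
  ∃ d, St A.1 d B.1 ∧ A.2.1.1 = tp d :: C.2.1.1 ∧ B.2.1.1 = ps d ∧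
    B.2.2 = C.1 ∧ C.2.2 = A.2.2 ∧ w = [d]

theorem RT.tr {K : ℕ} (hK : ∀ d, (ps d).length ≤ K) {x y : X} {β : List Γ} {v : List Δ}
    (h : RT St tp ps x β v y) : ∀ hβ : β.length ≤ K,
      Tr (rlf X Γ K) (fun _ (_ : List Δ) _ => False) (rP St tp ps K) (x, ⟨β, hβ⟩, y) v := by
  induction h with
  | nil x => exact fun hβ => Tr.leaf _ ⟨rfl, rfl⟩
  | node d β x x1 z y u v h1 _ _ ih1 ih2 =>
    intro hβ
    have hβ' : β.length ≤ K := by
      rw [List.length_cons] at hβ
      omega
    exact Tr.bin _ (x1, ⟨ps d, hK d⟩, z) (z, ⟨β, hβ'⟩, y) [d] u v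
      ⟨d, h1, rfl, rfl, rfl, rfl, rfl⟩ (ih1 (hK d)) (ih2 hβ')

theorem Tr.rn {K : ℕ} {A : X × {l : List Γ // l.length ≤ K} × X} {v : List Δ}
    (h : Tr (rlf X Γ K) (fun _ (_ : List Δ) _ => False) (rP St tp ps K) A v) :
    Rn St tp ps A.2.1.1 A.1 v A.2.2 := by
  induction h with
  | leaf A h =>
    obtain ⟨h1, h2⟩ := h
    rw [h1, h2]
    exact Rn.nil _
  | un A B w v h => exact h.elim
  | bin A B C w u v h _ _ ih1 ih2 =>
    obtain ⟨d, h1, h2, h3, h4, h5, rfl⟩ := h
    rw [h3, h4] at ih1
    rw [h5] at ih2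
    rw [h2]
    exact Rn.cons d _ _ _ _ _ h1 (ih1.append ih2)

theorem isContextFree_rn [Finite X] [Finite Γ] [Finite Δ] (Z : Γ) (x : X) (F : Set X) :
    Language.IsContextFree ({μ | ∃ y ∈ F, Rn St tp ps [Z] x μ y} : Language Δ) := by
  obtain ⟨K, hK⟩ := (Set.finite_range (fun d => (ps d).length)).bddAbove
  have hK' : ∀ d, (ps d).length ≤ K + 1 := fun d => (hK ⟨d, rfl⟩).trans (Nat.le_succ K)
  have hfin : Finite (X × {l : List Γ // l.length ≤ K + 1} × X) := by
    have h4 : Finite {l : List Γ // l.length ≤ K + 1} :=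
      (List.finite_length_le Γ (K + 1)).to_subtype
    infer_instance
  have h0 := isContextFree_tr (lf := rlf X Γ (K + 1)) (P1 := fun _ (_ : List Δ) _ => False)
    (P2 := rP St tp ps (K + 1))
    {A | A.1 = x ∧ A.2.1.1 = [Z] ∧ A.2.2 ∈ F} (Set.toFinite _) (Set.toFinite _) (by simp) (by
      refine Set.Finite.subset (Set.finite_univ.prod ((Set.finite_range
        (fun d : Δ => [d])).prod Set.finite_univ)) ?_
      rintro ⟨A, w, B, C⟩ ⟨d, -, -, -, -, -, h⟩
      exact ⟨trivial, ⟨d, h.symm⟩, trivial⟩)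
  have h1 : ({w | ∃ A ∈ {A : X × {l : List Γ // l.length ≤ K + 1} × X | A.1 = x ∧
      A.2.1.1 = [Z] ∧ A.2.2 ∈ F}, Tr (rlf X Γ (K + 1)) (fun _ (_ : List Δ) _ => False)
      (rP St tp ps (K + 1)) A w} : Language Δ) = {μ | ∃ y ∈ F, Rn St tp ps [Z] x μ y} := by
    ext μ
    constructor
    · rintro ⟨A, ⟨h1, h2, h3⟩, h4⟩
      have h5 := h4.rn
      rw [h1, h2] at h5
      exact ⟨A.2.2, h3, h5⟩
    · rintro ⟨y, hy, h⟩
      exact ⟨(x, ⟨[Z], by simp⟩, y), ⟨rfl, rfl, hy⟩, h.tree.tr hK' _⟩
  rw [← h1]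
  exact h0

end runs

section spda
variable {S : Type}

/-- the annotated states: the phase and the first label of the phase, if there is one; the state -/
abbrev XS (M : SPDA S) (n : ℕ) : Type := Option (Fin (n + 1) × M.Ψ) × M.Q

/-- the phase and the first label of the phase after a move -/
def PS (M : SPDA S) (n : ℕ) : Option (Fin (n + 1) × M.Ψ) → M.Q → Fin (n + 1) → M.Ψ →
    Fin (n + 1) × M.Ψ → Prop
  | none, _, j, s, o' => j = 0 ∧ o' = (j, s)
  | some (j0, s0), q, j, s, o' => (j = j0 ∧ o' = (j, s0) ∧ (j0 = 0 → q ≠ M.qt)) ∨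
      (j.val = j0.val + 1 ∧ o' = (j, s) ∧ M.R s0 s ∧ (j0 = 0 → q = M.qt))

/-- the moves -/
def XStep (M : SPDA S) (n : ℕ) (x : XS M n) (d : Fin (n + 1) × M.Ψ) (x' : XS M n) : Prop :=
  x.2 = M.src d.2 ∧ x'.2 = M.tgt d.2 ∧ ∃ o', x'.1 = some o' ∧ PS M n x.1 x.2 d.1 d.2 o'

/-- annotated computations -/
def XR (M : SPDA S) (n : ℕ) : List M.Γ → XS M n → List (Fin (n + 1) × M.Ψ) → XS M n → Prop :=
  Rn (XStep M n) (fun d => M.top d.2) (fun d => (M.psh d.2).reverse)

/-- the final annotated states -/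
def XF (M : SPDA S) (n : ℕ) : Set (XS M n) :=
  {y | y.2 ∈ M.F ∧ (n = 0 → y.2 = M.qt)}

/-- the language of annotated computations -/
def XK (M : SPDA S) (n : ℕ) : Language (Fin (n + 1) × M.Ψ) :=
  {μ | ∃ y ∈ XF M n, XR M n [M.Z0] (none, M.q0) μ y}

theorem XK_isContextFree (M : SPDA S) (n : ℕ) : (XK M n).IsContextFree := by
  have h1 := M.finQ
  have h2 := M.finΓ
  have h3 := M.finΨ
  exact isContextFree_rn _ _ _

variable {M : SPDA S} {n : ℕ}

theorem XR.comp {β : List M.Γ} {x y : XS M n} {μ : List (Fin (n + 1) × M.Ψ)}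
    (h : XR M n β x μ y) : M.Comp β.reverse x.2 (μ.flatMap (fun d => M.inp d.2))
      (μ.map Prod.snd) [] y.2 [] := by
  induction h with
  | nil x => exact SPDA.Comp.nil _ _ _
  | cons d β x x1 y μ h1 _ ih =>
    obtain ⟨h2, h3, -⟩ := h1
    rw [List.reverse_append, List.reverse_reverse, h3] at ih
    rw [List.reverse_cons, h2, List.flatMap_cons, List.map_cons]
    exact SPDA.Comp.cons d.2 β.reverse _ _ [] _ [] ih

theorem comp_word {α β : List M.Γ} {q p : M.Q} {v u : List S} {μ : List M.Ψ}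
    (h : M.Comp α q v μ β p u) : v = μ.flatMap M.inp ++ u := by
  induction h with
  | nil => rfl
  | cons r α v μ β p u _ ih => rw [ih, List.flatMap_cons, List.append_assoc]

/-- The blocks of an annotated computation. -/
theorem XR.blocks {k : ℕ} (hk : 1 ≤ k) {β : List M.Γ} {x y : XS M n}
    {μ : List (Fin (n + 1) × M.Ψ)} (h : XR M n β x μ y) :
    ∀ (j : Fin (n + 1)) (s0 : M.Ψ) (m l : ℕ), x.1 = some (j, s0) → (n = 0 → y.2 = M.qt) →
    μ.map (fun d => d.1.val) = List.replicate m j.val ++ (List.range' (j.val + 1) l).flatMap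
      (fun i => List.replicate k i) → j.val + l = n →
    ∃ (c : List M.Ψ) (L : List (List M.Ψ)), μ.map Prod.snd = c ++ L.flatten ∧ c.length = m ∧
      L.length = l ∧ (∀ b ∈ L, b.length = k) ∧ List.IsChain M.HeadRel ([s0] :: L) ∧
      (j.val = 0 → TQ M x.2 c) := by
  induction h with
  | nil x =>
    intro j s0 m l h1 h2 h3 h4
    have h5 := congrArg List.length h3
    rw [List.map_nil, List.length_nil, List.length_append, List.length_replicate] at h5
    have hm : m = 0 := by omega
    have hl : l = 0 := by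
      by_contra hl
      obtain ⟨l', rfl⟩ : ∃ l', l = l' + 1 := ⟨l - 1, by omega⟩
      rw [List.range'_succ, List.flatMap_cons, List.length_append, List.length_replicate] at h5
      omega
    subst hm hl
    exact ⟨[], [], rfl, rfl, rfl, by simp, by simp, fun h => h2 (by omega)⟩
  | cons d β x x1 y μ h1 _ ih =>
    intro j s0 m l h2 h3 h4 h5
    obtain ⟨g1, g2, o', g3, g4⟩ := h1
    obtain ⟨x1', x2'⟩ := x
    simp only at h2
    subst h2
    rw [List.map_cons] at h4
    rcases Nat.eq_zero_or_pos m with hm | hm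
    · subst hm
      rw [List.replicate_zero, List.nil_append] at h4
      have hl : l ≠ 0 := by
        rintro rfl
        simp at h4
      obtain ⟨l', rfl⟩ : ∃ l', l = l' + 1 := ⟨l - 1, by omega⟩
      obtain ⟨k', rfl⟩ : ∃ k', k = k' + 1 := ⟨k - 1, by omega⟩
      rw [List.range'_succ, List.flatMap_cons, List.replicate_succ, List.cons_append,
        List.cons.injEq] at h4
      obtain ⟨h4, h6⟩ := h4
      rcases g4 with ⟨g4, g5, g6⟩ | ⟨g4, g5, g6, g7⟩
      · exfalso
        rw [g4] at h4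
        omega
      · rw [← h4] at h6
        obtain ⟨c, L, i1, i2, i3, i4, i5, i6⟩ := ih d.1 d.2 k' l' (by rw [g3, g5]) h3 h6 (by omega)
        refine ⟨[], (d.2 :: c) :: L, ?_, rfl, ?_, ?_, ?_, ?_⟩
        · rw [List.map_cons, i1]
          rfl
        · rw [List.length_cons, i3]
        · intro b hb
          rcases List.mem_cons.1 hb with rfl | hb
          · rw [List.length_cons, i2]
          · exact i4 b hb
        · rw [List.isChain_cons_cons]
          refine ⟨⟨s0, d.2, rfl, rfl, g6⟩, ?_⟩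
          exact chain_head (by rfl) i5
        · intro hj
          exact g7 (Fin.ext hj)
    · obtain ⟨m', rfl⟩ : ∃ m', m = m' + 1 := ⟨m - 1, by omega⟩
      rw [List.replicate_succ, List.cons_append, List.cons.injEq] at h4
      obtain ⟨h4, h6⟩ := h4
      rcases g4 with ⟨g4, g5, g6⟩ | ⟨g4, g5, g6, g7⟩
      · rw [← h4] at h6
        obtain ⟨c, L, i1, i2, i3, i4, i5, i6⟩ := ih d.1 s0 m' l (by rw [g3, g5]) h3 h6 (by omega)
        refine ⟨d.2 :: c, L, ?_, ?_, i3, i4, i5, ?_⟩
        · rw [List.map_cons, i1]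
          rfl
        · rw [List.length_cons, i2]
        · intro hj
          refine ⟨g6 (Fin.ext hj), ?_⟩
          rw [← g2]
          exact i6 (by omega)
      · exfalso
        omega

/-- the annotation of a computation -/
theorem annot {k : ℕ} {f : M.Q} (L : List (List M.Ψ)) : (∀ b ∈ L, b.length = k) → 1 ≤ k →
    ∀ (c : List M.Ψ) (β : List M.Γ) (j : Fin (n + 1)) (s0 : M.Ψ) (q : M.Q) (w : List S),
    M.Comp β.reverse q w (c ++ L.flatten) [] f [] → L.length + j.val = n →
    List.IsChain M.HeadRel ([s0] :: L) → (j.val = 0 → TQ M q c) →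
    ∃ (y : XS M n) (μ : List (Fin (n + 1) × M.Ψ)), XR M n β (some (j, s0), q) μ y ∧ y.2 = f ∧
      (n = 0 → f = M.qt) ∧ μ.map Prod.snd = c ++ L.flatten ∧
      μ.map (fun d => d.1.val) = List.replicate c.length j.val ++
        (List.range' (j.val + 1) L.length).flatMap (fun i => List.replicate k i) := by
  induction L with
  | nil =>
    intro _ _ c
    induction c with
    | nil =>
      intro β j s0 q w h1 h2 h3 h4
      obtain ⟨h5, h6, -⟩ := Comp.nil_inv h1
      have h7 : β = [] := by simpa using h5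
      subst h7 h6
      refine ⟨(some (j, s0), q), [], Rn.nil _, rfl, ?_, rfl, rfl⟩
      intro hn
      exact h4 (by omega)
    | cons s c ih =>
      intro β j s0 q w h1 h2 h3 h4
      rw [List.cons_append] at h1
      obtain ⟨α', w', e1, e2, e3, e4⟩ := Comp.cons_inv h1
      have hβ : β = M.top s :: α'.reverse := by
        rw [← List.reverse_reverse β, e1]
        simp
      have e4' : M.Comp ((M.psh s).reverse ++ α'.reverse).reverse (M.tgt s) w'
          (c ++ ([] : List (List M.Ψ)).flatten) [] f [] := by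
        rw [List.reverse_append, List.reverse_reverse, List.reverse_reverse]
        exact e4
      obtain ⟨y, μ, g1, g2, g3, g4, g5⟩ := ih _ j s0 (M.tgt s) w' e4' h2 h3 (fun h => (h4 h).2)
      refine ⟨y, (j, s) :: μ, ?_, g2, g3, ?_, ?_⟩
      · rw [hβ]
        refine Rn.cons (St := XStep M n) (j, s) _ _ (some (j, s0), M.tgt s) y μ
          ⟨e2, rfl, (j, s0), rfl, Or.inl ⟨rfl, rfl, ?_⟩⟩ g1
        intro hj
        exact (h4 (by rw [hj]; rfl)).1
      · rw [List.map_cons, g4]
        rfl
      · rw [List.map_cons, g5]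
        rfl
  | cons b L ihL =>
    intro hb hk c
    obtain ⟨s, b', rfl⟩ : ∃ s b', b = s :: b' := by
      rcases b with - | ⟨s, b'⟩
      · have := hb [] (by simp)
        simp at this
        omega
      · exact ⟨s, b', rfl⟩
    have hb' := hb (s :: b') (by simp)
    induction c with
    | nil =>
      intro β j s0 q w h1 h2 h3 h4
      rw [List.nil_append, List.flatten_cons, List.cons_append] at h1
      obtain ⟨α', w', e1, e2, e3, e4⟩ := Comp.cons_inv h1
      have hβ : β = M.top s :: α'.reverse := by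
        rw [← List.reverse_reverse β, e1]
        simp
      have e4' : M.Comp ((M.psh s).reverse ++ α'.reverse).reverse (M.tgt s) w'
          (b' ++ L.flatten) [] f [] := by
        rw [List.reverse_append, List.reverse_reverse, List.reverse_reverse]
        exact e4
      rw [List.isChain_cons_cons] at h3
      obtain ⟨⟨s1, s2, i1, i2, i3⟩, h3⟩ := h3
      have i1' : s0 = s1 := Option.some.inj i1
      have i2' : s = s2 := Option.some.inj i2
      subst i1' i2'
      rw [List.length_cons] at h2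
      obtain ⟨j1, hj1⟩ : ∃ j1 : Fin (n + 1), j1.val = j.val + 1 := ⟨⟨j.val + 1, by omega⟩, rfl⟩
      obtain ⟨y, μ, g1, g2, g3, g4, g5⟩ := ihL (fun b hb2 => hb b (by simp [hb2])) hk b' _ j1 s
        (M.tgt s) w' e4' (by omega) (chain_head (by rfl) h3) (fun h => by omega)
      refine ⟨y, (j1, s) :: μ, ?_, g2, g3, ?_, ?_⟩
      · rw [hβ]
        refine Rn.cons (St := XStep M n) (j1, s) _ _ (some (j1, s), M.tgt s) y μ
          ⟨e2, rfl, (j1, s), rfl, Or.inr ⟨hj1, rfl, i3, ?_⟩⟩ g1
        intro hj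
        exact h4 (by rw [hj]; rfl)
      · rw [List.map_cons, g4]
        rfl
      · rw [List.length_cons] at hb'
        rw [List.map_cons, g5, List.length_cons, List.range'_succ, List.flatMap_cons, ← hb',
          List.replicate_succ, hj1]
        rfl
    | cons s' c ih =>
      intro β j s0 q w h1 h2 h3 h4
      rw [List.cons_append] at h1
      obtain ⟨α', w', e1, e2, e3, e4⟩ := Comp.cons_inv h1
      have hβ : β = M.top s' :: α'.reverse := by
        rw [← List.reverse_reverse β, e1]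
        simp
      have e4' : M.Comp ((M.psh s').reverse ++ α'.reverse).reverse (M.tgt s') w'
          (c ++ ((s :: b') :: L).flatten) [] f [] := by
        rw [List.reverse_append, List.reverse_reverse, List.reverse_reverse]
        exact e4
      obtain ⟨y, μ, g1, g2, g3, g4, g5⟩ := ih _ j s0 (M.tgt s') w' e4' h2 h3 (fun h => (h4 h).2)
      refine ⟨y, (j, s') :: μ, ?_, g2, g3, ?_, ?_⟩
      · rw [hβ]
        refine Rn.cons (St := XStep M n) (j, s') _ _ (some (j, s0), M.tgt s') y μ
          ⟨e2, rfl, (j, s0), rfl, Or.inl ⟨rfl, rfl, ?_⟩⟩ g1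
        intro hj
        exact (h4 (by rw [hj]; rfl)).1
      · rw [List.map_cons, g4]
        rfl
      · rw [List.map_cons, g5]
        rfl

theorem one_sing' {A : Type} {a b : A} {α : List A} (h : [a] = α ++ [b]) : α = [] ∧ a = b := by
  rcases α with - | ⟨x, α⟩
  · simpa using h
  · simp at h

/-- the language of an automaton in terms of the annotated computations -/
theorem lang_eq (M : SPDA S) (n : ℕ) : M.lang n =
    {w | ∃ u ∈ XK M n, w = u.flatMap (fun d => M.inp d.2) ∧
      ∃ k, 1 ≤ k ∧ u.map (fun d => d.1.val) = phw n k} := by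
  ext w
  constructor
  · rintro ⟨f, hf, k, hk, b, L, hL, hlen, hcomp, ⟨ν, r', hb, htgt, hν⟩, hchain⟩
    have hbk : b.length = k := hlen b (by simp)
    obtain ⟨s0, c, rfl⟩ : ∃ s0 c, b = s0 :: c := by
      rcases b with - | ⟨s0, c⟩
      · simp at hbk
        omega
      · exact ⟨_, _, rfl⟩
    rw [List.flatten_cons, List.cons_append] at hcomp
    obtain ⟨α', w', e1, e2, e3, e4⟩ := Comp.cons_inv hcomp
    obtain ⟨rfl, e1'⟩ := one_sing' e1
    rw [List.nil_append] at e4
    have e4' : M.Comp ((M.psh s0).reverse).reverse (M.tgt s0) w' (c ++ L.flatten) [] f [] := by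
      rw [List.reverse_reverse]
      exact e4
    obtain ⟨y, μ, g1, g2, g3, g4, g5⟩ := annot (M := M) (n := n) (k := k) (f := f) L
      (fun b hb => hlen b (by simp [hb])) hk c _ 0 s0 (M.tgt s0) w' e4'
      (by simpa using hL) (chain_head (by rfl) hchain)
      (fun _ => (TQ_iff c s0).2 ⟨ν, r', hb, htgt, hν⟩)
    refine ⟨(0, s0) :: μ, ⟨y, ⟨by rw [g2]; exact hf, fun hn => by rw [g2]; exact g3 hn⟩, ?_⟩, ?_,
      k, hk, ?_⟩
    · rw [e1']
      have h0 : XR M n ((M.psh s0).reverse ++ []) (some (0, s0), M.tgt s0) μ y := by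
        rw [List.append_nil]
        exact g1
      exact Rn.cons (St := XStep M n) (tp := fun d => M.top d.2)
        (ps := fun d => (M.psh d.2).reverse) (0, s0) [] (none, M.q0) (some (0, s0), M.tgt s0) y μ
        ⟨e2, rfl, (0, s0), rfl, rfl, rfl⟩ h0
    · have h1 := comp_word e4
      have h2 : μ.flatMap (fun d => M.inp d.2) = (μ.map Prod.snd).flatMap M.inp := by
        rw [List.flatMap_map]
      rw [e3, h1, List.flatMap_cons, h2, g4, List.append_nil]
    · rw [List.map_cons, g5, phw_eq]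
      rw [List.length_cons] at hbk
      rw [← hbk, List.replicate_succ]
      have h3 : L.length = n := by simpa using hL
      rw [h3, hbk]
      rfl
  · rintro ⟨u, ⟨y, ⟨hy1, hy2⟩, hu⟩, rfl, k, hk, hmap⟩
    have hcomp := hu.comp
    change Rn (XStep M n) (fun d => M.top d.2) (fun d => (M.psh d.2).reverse)
      [M.Z0] (none, M.q0) u y at hu
    generalize hβ : [M.Z0] = β at hu
    generalize hx : ((none, M.q0) : XS M n) = x at hu
    cases hu with
    | nil => simp at hβ
    | cons d β x x1 y μ h1 h2 =>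
      rw [phw_eq, List.map_cons] at hmap
      obtain ⟨k', rfl⟩ : ∃ k', k = k' + 1 := ⟨k - 1, by omega⟩
      rw [List.replicate_succ, List.cons_append, List.cons.injEq] at hmap
      obtain ⟨hd, hmap⟩ := hmap
      subst hx
      obtain ⟨h3, h4, o', h5, h6, rfl⟩ := h1
      obtain ⟨c, L, i1, i2, i3, i4, i5, i6⟩ := XR.blocks hk h2 0 d.2 k' n (by rw [h5, h6]) hy2
        (by simpa using hmap) (by simp)
      rw [List.map_cons, i1] at hcomp
      refine ⟨y.2, hy1, k' + 1, hk, d.2 :: c, L, i3, ?_, hcomp, ?_, ?_⟩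
      · intro b hb
        rcases List.mem_cons.1 hb with rfl | hb
        · rw [List.length_cons, i2]
        · exact i4 b hb
      · have h7 := i6 rfl
        rw [h4] at h7
        exact (TQ_iff c d.2).1 h7
      · exact chain_head (by rfl) i5

end spda

end Pool.Agent.V11233.FP
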