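import Mathlib

/-!
Context-free grammars: the words generated by strings of symbols, and a convenient way of showing
that a language is context-free.
-/

set_option autoImplicit false

namespace Pool.Agent.V11233.FP

/-- the words generated by strings of symbols -/
inductive Yld {T N : Type} (R : Set (ContextFreeRule T N)) : List (Symbol T N) → List T → Prop
  | nil : Yld R [] []
  | term (a : T) (β : List (Symbol T N)) (w : List T) : Yld R β w →
      Yld R (Symbol.terminal a :: β) (a :: w)
  | nont (r : ContextFreeRule T N) (β : List (Symbol T N)) (u w : List T) : r ∈ R →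
      Yld R r.output u → Yld R β w → Yld R (Symbol.nonterminal r.input :: β) (u ++ w)

section yld
variable {T N : Type} {R : Set (ContextFreeRule T N)}

theorem Yld.append {α β : List (Symbol T N)} {u v : List T} (h : Yld R α u)
    (h' : Yld R β v) : Yld R (α ++ β) (u ++ v) := by
  induction h with
  | nil => exact h'
  | term a γ w _ ih => exact Yld.term a _ _ ih
  | nont r γ u w hr h1 _ _ ih2 =>
    rw [List.append_assoc]
    exact Yld.nont r _ _ _ hr h1 ih2

theorem Yld.split (α : List (Symbol T N)) : ∀ {β : List (Symbol T N)} {w : List T},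
    Yld R (α ++ β) w → ∃ u v, w = u ++ v ∧ Yld R α u ∧ Yld R β v := by
  induction α with
  | nil =>
    intro β w h
    exact ⟨[], w, rfl, Yld.nil, h⟩
  | cons X α ih =>
    intro β w h
    cases h with
    | term a _ w h =>
      obtain ⟨u, v, rfl, h1, h2⟩ := ih h
      exact ⟨a :: u, v, rfl, Yld.term _ _ _ h1, h2⟩
    | nont r _ u w hr h1 h2 =>
      obtain ⟨u', v, rfl, h3, h4⟩ := ih h2
      exact ⟨u ++ u', v, by rw [List.append_assoc], Yld.nont r _ _ _ hr h1 h3, h4⟩

theorem yld_terminals (w : List T) : Yld R (w.map Symbol.terminal) w := by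
  induction w with
  | nil => exact Yld.nil
  | cons a w ih => exact Yld.term _ _ _ ih

theorem Yld.single {r : ContextFreeRule T N} (hr : r ∈ R) {w : List T}
    (h : Yld R r.output w) : Yld R [Symbol.nonterminal r.input] w := by
  have := Yld.nont r [] w [] hr h Yld.nil
  rwa [List.append_nil] at this

theorem Yld.produces {g : ContextFreeGrammar T} {u v : List (Symbol T g.NT)} {w : List T}
    (h : g.Produces u v) (h' : Yld {r | r ∈ g.rules} v w) : Yld {r | r ∈ g.rules} u w := by
  obtain ⟨r, hr, h⟩ := h
  obtain ⟨p, q, rfl, rfl⟩ := h.exists_parts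
  rw [List.append_assoc] at h'
  obtain ⟨w1, w2, rfl, h1, h2⟩ := Yld.split _ h'
  obtain ⟨w3, w4, rfl, h3, h4⟩ := Yld.split _ h2
  rw [List.append_assoc]
  exact h1.append (Yld.nont r q _ _ hr h3 h4)

theorem Yld.derives {g : ContextFreeGrammar T} {u : List (Symbol T g.NT)} {w : List T}
    (h : Yld {r | r ∈ g.rules} u w) : g.Derives u (w.map Symbol.terminal) := by
  induction h with
  | nil => exact ContextFreeGrammar.Derives.refl _
  | term a β w _ ih => exact ih.append_left [Symbol.terminal a]
  | nont r β u w hr _ _ ih1 ih2 =>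
    have h1 : g.Produces (Symbol.nonterminal r.input :: β) (r.output ++ β) :=
      ⟨r, hr, ContextFreeRule.Rewrites.head β⟩
    rw [List.map_append]
    exact h1.trans_derives ((ih1.append_right β).trans (ih2.append_left _))

theorem derives_iff_yld {g : ContextFreeGrammar T} {u : List (Symbol T g.NT)} {w : List T} :
    g.Derives u (w.map Symbol.terminal) ↔ Yld {r | r ∈ g.rules} u w := by
  constructor
  · intro h
    obtain ⟨v, hv⟩ : ∃ v, v = w.map (Symbol.terminal (N := g.NT)) := ⟨_, rfl⟩
    rw [← hv] at h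
    have h0 : Yld {r | r ∈ g.rules} v w := by
      rw [hv]
      exact yld_terminals w
    clear hv
    induction h with
    | refl => exact h0
    | tail _ h2 ih => exact ih (Yld.produces h2 h0)
  · exact Yld.derives

theorem mem_language_iff_yld {g : ContextFreeGrammar T} {w : List T} :
    w ∈ g.language ↔ Yld {r | r ∈ g.rules} [Symbol.nonterminal g.initial] w := by
  rw [ContextFreeGrammar.mem_language_iff]
  exact derives_iff_yld

end yld

/-- the words generated by unary and binary productions -/
inductive Tr {N T : Type} (lf : N → Prop) (P1 : N → List T → N → Prop)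
    (P2 : N → List T → N → N → Prop) : N → List T → Prop
  | leaf (A : N) : lf A → Tr lf P1 P2 A []
  | un (A B : N) (w v : List T) : P1 A w B → Tr lf P1 P2 B v → Tr lf P1 P2 A (w ++ v)
  | bin (A B C : N) (w u v : List T) : P2 A w B C → Tr lf P1 P2 B u → Tr lf P1 P2 C v →
      Tr lf P1 P2 A (w ++ (u ++ v))

section tr
variable {N T : Type} {lf : N → Prop} {P1 : N → List T → N → Prop}
  {P2 : N → List T → N → N → Prop}

/-- the words generated by lists of symbols -/
inductive TL (st : Set N) (lf : N → Prop) (P1 : N → List T → N → Prop)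
    (P2 : N → List T → N → N → Prop) : List (Symbol T (Option N)) → List T → Prop
  | nil : TL st lf P1 P2 [] []
  | term (a : T) (β : List (Symbol T (Option N))) (w : List T) : TL st lf P1 P2 β w →
      TL st lf P1 P2 (Symbol.terminal a :: β) (a :: w)
  | init (A : N) (β : List (Symbol T (Option N))) (u w : List T) : A ∈ st →
      Tr lf P1 P2 A u → TL st lf P1 P2 β w →
      TL st lf P1 P2 (Symbol.nonterminal none :: β) (u ++ w)
  | nont (A : N) (β : List (Symbol T (Option N))) (u w : List T) :
      Tr lf P1 P2 A u → TL st lf P1 P2 β w →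
      TL st lf P1 P2 (Symbol.nonterminal (some A) :: β) (u ++ w)

theorem TL.terminals {st : Set N} (v : List T) : ∀ {β : List (Symbol T (Option N))} {w : List T},
    TL st lf P1 P2 (v.map Symbol.terminal ++ β) w → ∃ u, w = v ++ u ∧ TL st lf P1 P2 β u := by
  induction v with
  | nil =>
    intro β w h
    exact ⟨w, rfl, h⟩
  | cons a v ih =>
    intro β w h
    cases h with
    | term _ _ w h =>
      obtain ⟨u, rfl, h1⟩ := ih h
      exact ⟨u, rfl, h1⟩

theorem TL.cons_some {st : Set N} {A : N} {β : List (Symbol T (Option N))} {w : List T}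
    (h : TL st lf P1 P2 (Symbol.nonterminal (some A) :: β) w) :
    ∃ u v, w = u ++ v ∧ Tr lf P1 P2 A u ∧ TL st lf P1 P2 β v := by
  cases h with
  | nont _ _ u w h1 h2 => exact ⟨u, w, rfl, h1, h2⟩

theorem TL.nil_inv {st : Set N} {w : List T} (h : TL st lf P1 P2 [] w) : w = [] := by
  cases h with
  | nil => rfl

/-- A way of showing that a language is context-free. -/
theorem isContextFree_tr (st : Set N) (hst : st.Finite) (hlf : {A | lf A}.Finite)
    (h1 : {x : N × List T × N | P1 x.1 x.2.1 x.2.2}.Finite)
    (h2 : {x : N × List T × N × N | P2 x.1 x.2.1 x.2.2.1 x.2.2.2}.Finite) :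
    Language.IsContextFree ({w | ∃ A ∈ st, Tr lf P1 P2 A w} : Language T) := by
  classical
  have f0 : {r : ContextFreeRule T (Option N) | ∃ A ∈ st,
      r = ⟨none, [Symbol.nonterminal (some A)]⟩}.Finite := by
    refine (hst.image (fun A => (⟨none, [Symbol.nonterminal (some A)]⟩ :
      ContextFreeRule T (Option N)))).subset ?_
    rintro r ⟨A, hA, rfl⟩
    exact ⟨A, hA, rfl⟩
  have f1 : {r : ContextFreeRule T (Option N) | ∃ A, lf A ∧ r = ⟨some A, []⟩}.Finite := by
    refine (hlf.image (fun A => (⟨some A, []⟩ : ContextFreeRule T (Option N)))).subset ?_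
    rintro r ⟨A, hA, rfl⟩
    exact ⟨A, hA, rfl⟩
  have f2 : {r : ContextFreeRule T (Option N) | ∃ A w B, P1 A w B ∧
      r = ⟨some A, w.map Symbol.terminal ++ [Symbol.nonterminal (some B)]⟩}.Finite := by
    refine (h1.image (fun x => (⟨some x.1, x.2.1.map Symbol.terminal ++
      [Symbol.nonterminal (some x.2.2)]⟩ : ContextFreeRule T (Option N)))).subset ?_
    rintro r ⟨A, w, B, hA, rfl⟩
    exact ⟨(A, w, B), hA, rfl⟩
  have f3 : {r : ContextFreeRule T (Option N) | ∃ A w B C, P2 A w B C ∧
      r = ⟨some A, w.map Symbol.terminal ++ [Symbol.nonterminal (some B),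
        Symbol.nonterminal (some C)]⟩}.Finite := by
    refine (h2.image (fun x => (⟨some x.1, x.2.1.map Symbol.terminal ++
      [Symbol.nonterminal (some x.2.2.1), Symbol.nonterminal (some x.2.2.2)]⟩ :
      ContextFreeRule T (Option N)))).subset ?_
    rintro r ⟨A, w, B, C, hA, rfl⟩
    exact ⟨(A, w, B, C), hA, rfl⟩
  obtain ⟨R, hR⟩ : ∃ R : Finset (ContextFreeRule T (Option N)), ∀ r, r ∈ R ↔
      ((∃ A ∈ st, r = ⟨none, [Symbol.nonterminal (some A)]⟩) ∨ (∃ A, lf A ∧ r = ⟨some A, []⟩) ∨
      (∃ A w B, P1 A w B ∧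
        r = ⟨some A, w.map Symbol.terminal ++ [Symbol.nonterminal (some B)]⟩) ∨
      (∃ A w B C, P2 A w B C ∧ r = ⟨some A, w.map Symbol.terminal ++
        [Symbol.nonterminal (some B), Symbol.nonterminal (some C)]⟩)) := by
    refine ⟨(f0.union (f1.union (f2.union f3))).toFinset, fun r => ?_⟩
    rw [Set.Finite.mem_toFinset]
    rfl
  refine ⟨⟨Option N, none, R⟩, ?_⟩
  ext w
  rw [mem_language_iff_yld]
  change Yld {r | r ∈ R} [Symbol.nonterminal none] w ↔ ∃ A ∈ st, Tr lf P1 P2 A w
  constructor
  · intro h
    have key : ∀ (α : List (Symbol T (Option N))) (w : List T),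
        Yld {r | r ∈ R} α w → TL st lf P1 P2 α w := by
      intro α w h
      induction h with
      | nil => exact TL.nil
      | term a β w _ ih => exact TL.term a β w ih
      | nont r β u w hr _ _ ih1 ih2 =>
        rcases (hR r).1 hr with ⟨A, hA, rfl⟩ | ⟨A, hA, rfl⟩ | ⟨A, v, B, hA, rfl⟩ |
          ⟨A, v, B, C, hA, rfl⟩
        · obtain ⟨u1, u2, rfl, h3, h4⟩ := TL.cons_some ih1
          rw [TL.nil_inv h4, List.append_nil]
          exact TL.init A β u1 w hA h3 ih2
        · rw [TL.nil_inv ih1]
          exact TL.nont A β [] w (Tr.leaf A hA) ih2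
        · obtain ⟨u1, rfl, h3⟩ := TL.terminals v ih1
          obtain ⟨u2, u3, rfl, h4, h5⟩ := TL.cons_some h3
          rw [TL.nil_inv h5, List.append_nil]
          exact TL.nont A β _ w (Tr.un A B v u2 hA h4) ih2
        · obtain ⟨u1, rfl, h3⟩ := TL.terminals v ih1
          obtain ⟨u2, u3, rfl, h4, h5⟩ := TL.cons_some h3
          obtain ⟨u4, u5, rfl, h6, h7⟩ := TL.cons_some h5
          rw [TL.nil_inv h7, List.append_nil]
          exact TL.nont A β _ w (Tr.bin A B C v u2 u4 hA h4 h6) ih2
    have h3 := key _ _ h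
    cases h3 with
    | init A _ u w hA h4 h5 =>
      rw [TL.nil_inv h5, List.append_nil]
      exact ⟨A, hA, h4⟩
  · rintro ⟨A, hA, h⟩
    have key : ∀ (A : N) (w : List T), Tr lf P1 P2 A w →
        Yld {r | r ∈ R} [Symbol.nonterminal (some A)] w := by
      intro A w h
      induction h with
      | leaf A hA =>
        exact Yld.single (R := {r | r ∈ R}) (r := ⟨some A, []⟩)
          ((hR _).2 (Or.inr (Or.inl ⟨A, hA, rfl⟩))) Yld.nil
      | un A B w v hA _ ih =>
        exact Yld.single (R := {r | r ∈ R})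
          (r := ⟨some A, w.map Symbol.terminal ++ [Symbol.nonterminal (some B)]⟩)
          ((hR _).2 (Or.inr (Or.inr (Or.inl ⟨A, w, B, hA, rfl⟩))))
          ((yld_terminals w).append ih)
      | bin A B C w u v hA _ _ ih1 ih2 =>
        exact Yld.single (R := {r | r ∈ R}) (r := ⟨some A, w.map Symbol.terminal ++
          [Symbol.nonterminal (some B), Symbol.nonterminal (some C)]⟩)
          ((hR _).2 (Or.inr (Or.inr (Or.inr ⟨A, w, B, C, hA, rfl⟩))))
          ((yld_terminals w).append (ih1.append ih2))
    exact Yld.single (R := {r | r ∈ R}) (r := ⟨none, [Symbol.nonterminal (some A)]⟩)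
      ((hR _).2 (Or.inl ⟨A, hA, rfl⟩)) (key A w h)

end tr

end Pool.Agent.V11233.FP
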